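import Mathlib

/-!
Blocks N1, N2: two numerical asymptotic facts (polynomial times `q ^ m` with `q < 1`).
-/

namespace Pool.Agent.Helper92.LP

namespace BN12

lemma two_rpow_five : ((2 : ℝ) ^ (-(0.76 * 130 : ℝ))) ^ 5 = 1 / 2 ^ 494 := by
  rw [← Real.rpow_natCast, ← Real.rpow_mul (by norm_num)]
  rw [show (-(0.76 * 130 : ℝ)) * ((5 : ℕ) : ℝ) = -((494 : ℕ) : ℝ) by norm_num]
  rw [Real.rpow_neg (by norm_num), Real.rpow_natCast]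
  norm_num

lemma rhs_eq (m : ℕ) : (2 : ℝ) ^ (-(0.76 * (130 * (m : ℝ) + 132)))
    = (2 : ℝ) ^ (-(0.76 * 132 : ℝ)) * ((2 : ℝ) ^ (-(0.76 * 130 : ℝ))) ^ m := by
  rw [← Real.rpow_natCast, ← Real.rpow_mul (by norm_num), ← Real.rpow_add (by norm_num)]
  congr 1
  ring

lemma le_of_fifth {x c : ℝ} (hc : 0 ≤ c) (h : x ^ 5 * 2 ^ 494 ≤ c ^ 5) :
    x ≤ c * (2 : ℝ) ^ (-(0.76 * 130 : ℝ)) := by
  have h0 : (0 : ℝ) ≤ (2 : ℝ) ^ (-(0.76 * 130 : ℝ)) := Real.rpow_nonneg (by norm_num) _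
  refine le_of_pow_le_pow_left₀ (n := 5) (by norm_num) (mul_nonneg hc h0) ?_
  rw [mul_pow, two_rpow_five, mul_one_div, le_div_iff₀ (by positivity)]
  exact h

/-- polynomial (degree two) times `q ^ m` is eventually below any positive constant -/
lemma eventually_small (q C δ : ℝ) (hq0 : 0 ≤ q) (hq : q < 1) (hδ : 0 < δ) :
    ∃ m₀ : ℕ, ∀ m : ℕ, m₀ ≤ m → C * ((m : ℝ) ^ 2 * q ^ m) ≤ δ := by
  have h := tendsto_pow_const_mul_const_pow_of_abs_lt_one 2 (r := q) (by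
    rw [abs_of_nonneg hq0]; exact hq)
  have h2 := h.const_mul C
  rw [mul_zero] at h2
  have h3 := h2.eventually (eventually_le_nhds hδ)
  obtain ⟨m₀, hm₀⟩ := Filter.eventually_atTop.1 h3
  exact ⟨m₀, fun m hm => hm₀ m hm⟩

lemma combine (q C : ℝ) (x : ℝ) (hx0 : 0 ≤ x) (hq0 : 0 ≤ q) (hq : q < 1)
    (hx : x ≤ q * (2 : ℝ) ^ (-(0.76 * 130 : ℝ))) (hC : 0 ≤ C) :
    ∃ m₀ : ℕ, ∀ m : ℕ, m₀ ≤ m →
      C * ((m : ℝ) ^ 2 * x ^ m) ≤ (2 : ℝ) ^ (-(0.76 * (130 * (m : ℝ) + 132))) := by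
  obtain ⟨m₀, hm₀⟩ := eventually_small q C ((2 : ℝ) ^ (-(0.76 * 132 : ℝ))) hq0 hq
    (Real.rpow_pos_of_pos (by norm_num) _)
  refine ⟨m₀, fun m hm => ?_⟩
  rw [rhs_eq]
  have h1 := hm₀ m hm
  have h0 : (0 : ℝ) ≤ ((2 : ℝ) ^ (-(0.76 * 130 : ℝ))) ^ m := by positivity
  have h2 : x ^ m ≤ q ^ m * ((2 : ℝ) ^ (-(0.76 * 130 : ℝ))) ^ m := by
    rw [← mul_pow]
    exact pow_le_pow_left₀ hx0 hx m
  calc C * ((m : ℝ) ^ 2 * x ^ m)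
      ≤ C * ((m : ℝ) ^ 2 * (q ^ m * ((2 : ℝ) ^ (-(0.76 * 130 : ℝ))) ^ m)) := by gcongr
    _ = C * ((m : ℝ) ^ 2 * q ^ m) * ((2 : ℝ) ^ (-(0.76 * 130 : ℝ))) ^ m := by ring
    _ ≤ _ := mul_le_mul_of_nonneg_right h1 h0

lemma nat1 : (13 ^ 130) ^ 10 * 100000 ^ 25 * 81839 ^ 50 * 1036 ^ 10 * ((2 ^ 247) ^ 2) * 10 ^ 5
    ≤ 9 ^ 5 * ((14 ^ 140) ^ 10 * 34153 ^ 25 * 100000 ^ 50 * 1000 ^ 10) := by
  norm_num

lemma nat2 : (5 ^ 130) ^ 5 * ((2 ^ 247) ^ 2) * 2 ^ 5 ≤ (6 ^ 156) ^ 5 := by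
  norm_num

lemma e_aux (a b c l d s t u : ℝ) (hc : c ≠ 0) (hl : l ≠ 0) (hd : d ≠ 0) (hu : u ≠ 0) :
    ((a / c) ^ 2 / (l / d) ^ 5 * (s / d) ^ 10 * (t / u) ^ 2) ^ 5 * b ^ 2
      = (a ^ 10 * d ^ 25 * s ^ 50 * t ^ 10 * b ^ 2) / (c ^ 10 * l ^ 25 * d ^ 50 * u ^ 10) := by
  field_simp

end BN12

open BN12

/-- N1 -/
lemma num1 : ∃ m₀ : ℕ, ∀ m : ℕ, m₀ ≤ m →
    (450 * (140 * (m : ℝ) + 1) * ((13 : ℝ) ^ 130 / 14 ^ 140) ^ m) ^ 2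
        / (34153 / 100000) ^ (5 * m - 1)
        * ((81839 / 100000) ^ (10 * m) * (1036 / 1000) ^ (2 * m + 2))
      ≤ (2 : ℝ) ^ (-(0.76 * (130 * (m : ℝ) + 132))) := by
  have hx : ((13 : ℝ) ^ 130 / 14 ^ 140) ^ 2 / (34153 / 100000) ^ 5 * (81839 / 100000) ^ 10
      * (1036 / 1000) ^ 2 ≤ (9 / 10) * (2 : ℝ) ^ (-(0.76 * 130 : ℝ)) := by
    apply le_of_fifth (by norm_num)
    have h := nat1
    have h' : (((13 ^ 130) ^ 10 * 100000 ^ 25 * 81839 ^ 50 * 1036 ^ 10 * ((2 ^ 247) ^ 2) * 10 ^ 5 : ℕ) : ℝ)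
      ≤ ((9 ^ 5 * ((14 ^ 140) ^ 10 * 34153 ^ 25 * 100000 ^ 50 * 1000 ^ 10) : ℕ) : ℝ) :=
      Nat.cast_le.2 h
    simp only [Nat.cast_mul, Nat.cast_pow, Nat.cast_ofNat] at h'
    have e : (((13 : ℝ) ^ 130 / 14 ^ 140) ^ 2 / (34153 / 100000) ^ 5 * (81839 / 100000) ^ 10
        * (1036 / 1000) ^ 2) ^ 5 * 2 ^ 494
        = ((13 ^ 130) ^ 10 * 100000 ^ 25 * 81839 ^ 50 * 1036 ^ 10 * ((2 ^ 247) ^ 2))
          / ((14 ^ 140) ^ 10 * 34153 ^ 25 * 100000 ^ 50 * 1000 ^ 10) := by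
      rw [show (2 : ℝ) ^ 494 = (2 ^ 247) ^ 2 by rw [← pow_mul]]
      exact e_aux _ _ _ _ _ _ _ _ (by positivity) (by norm_num) (by norm_num) (by norm_num)
    rw [e, div_le_iff₀ (by positivity), div_pow, div_mul_eq_mul_div, le_div_iff₀ (by positivity)]
    exact h'
  obtain ⟨m₀, hm₀⟩ := combine (9 / 10) (450 ^ 2 * 141 ^ 2 * (34153 / 100000) * (1036 / 1000) ^ 2)
    _ (by positivity) (by norm_num) (by norm_num) hx (by positivity)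
  refine ⟨max m₀ 1, fun m hm => ?_⟩
  have hm1 : 1 ≤ m := le_trans (le_max_right _ _) hm
  refine le_trans ?_ (hm₀ m (le_trans (le_max_left _ _) hm))
  have hm1R : (1 : ℝ) ≤ m := by exact_mod_cast hm1
  have hL : ((34153 : ℝ) / 100000) ^ (5 * m - 1) * (34153 / 100000)
      = ((34153 / 100000) ^ 5) ^ m := by
    rw [← pow_succ, ← pow_mul]
    congr 1
    omega
  have hLpos : (0 : ℝ) < ((34153 : ℝ) / 100000) ^ (5 * m - 1) := by positivity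
  have hpoly : (140 * (m : ℝ) + 1) ^ 2 ≤ 141 ^ 2 * (m : ℝ) ^ 2 := by nlinarith
  rw [div_mul_eq_mul_div, div_le_iff₀ hLpos]
  have e1 : (450 * (140 * (m : ℝ) + 1) * ((13 : ℝ) ^ 130 / 14 ^ 140) ^ m) ^ 2
      * ((81839 / 100000) ^ (10 * m) * (1036 / 1000) ^ (2 * m + 2))
      = (140 * (m : ℝ) + 1) ^ 2 * (450 ^ 2 * (((13 : ℝ) ^ 130 / 14 ^ 140) ^ 2) ^ m
        * ((81839 / 100000) ^ 10) ^ m * (((1036 / 1000) ^ 2) ^ m * (1036 / 1000) ^ 2)) := by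
    rw [pow_add, pow_mul (1036 / 1000 : ℝ) 2 m, pow_mul (81839 / 100000 : ℝ) 10 m, mul_pow, mul_pow,
      ← pow_mul ((13 : ℝ) ^ 130 / 14 ^ 140) 2 m, mul_comm 2 m,
      pow_mul ((13 : ℝ) ^ 130 / 14 ^ 140) m 2]
    generalize (((13 : ℝ) ^ 130 / 14 ^ 140)) ^ m = A
    generalize (((81839 : ℝ) / 100000) ^ 10) ^ m = S
    generalize (((1036 : ℝ) / 1000) ^ 2) ^ m = T
    ring
  have e2 : 450 ^ 2 * 141 ^ 2 * (34153 / 100000) * (1036 / 1000) ^ 2 *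
      ((m : ℝ) ^ 2 * (((13 : ℝ) ^ 130 / 14 ^ 140) ^ 2 / (34153 / 100000) ^ 5 * (81839 / 100000) ^ 10
      * (1036 / 1000) ^ 2) ^ m) * (34153 / 100000) ^ (5 * m - 1)
      = (141 ^ 2 * (m : ℝ) ^ 2) * (450 ^ 2 * (((13 : ℝ) ^ 130 / 14 ^ 140) ^ 2) ^ m
        * ((81839 / 100000) ^ 10) ^ m * (((1036 / 1000) ^ 2) ^ m * (1036 / 1000) ^ 2)) := by
    rw [mul_pow, mul_pow, div_pow _ _ m, ← hL]
    have h3 : ((34153 : ℝ) / 100000) ≠ 0 := by norm_num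
    have h4 := hLpos.ne'
    generalize ((34153 : ℝ) / 100000) ^ (5 * m - 1) = L at h4 ⊢
    generalize (34153 : ℝ) / 100000 = l at h3 ⊢
    generalize (((13 : ℝ) ^ 130 / 14 ^ 140) ^ 2) ^ m = A
    generalize (((81839 : ℝ) / 100000) ^ 10) ^ m = S
    generalize (((1036 : ℝ) / 1000) ^ 2) ^ m = T
    field_simp
  rw [e1, e2]
  exact mul_le_mul_of_nonneg_right hpoly (by positivity)

/-- N2 -/
lemma num2 : ∃ m₀ : ℕ, ∀ m : ℕ, m₀ ≤ m →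
    ((156 * (m : ℝ) + 130) * 400) * (20 * (156 * m + 1) * ((5 : ℝ) ^ 130 / 6 ^ 156) ^ m)
      ≤ (2 : ℝ) ^ (-(0.76 * (130 * (m : ℝ) + 132))) := by
  have hx : ((5 : ℝ) ^ 130 / 6 ^ 156) ≤ (1 / 2) * (2 : ℝ) ^ (-(0.76 * 130 : ℝ)) := by
    apply le_of_fifth (by norm_num)
    have h' : (((5 ^ 130) ^ 5 * ((2 ^ 247) ^ 2) * 2 ^ 5 : ℕ) : ℝ) ≤ (((6 ^ 156) ^ 5 : ℕ) : ℝ) :=
      Nat.cast_le.2 nat2
    simp only [Nat.cast_mul, Nat.cast_pow, Nat.cast_ofNat] at h'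
    rw [div_pow, div_mul_eq_mul_div, div_pow, one_pow, div_le_div_iff₀ (by positivity) (by positivity),
      one_mul, show (2 : ℝ) ^ 494 = (2 ^ 247) ^ 2 by rw [← pow_mul]]
    exact h'
  obtain ⟨m₀, hm₀⟩ := combine (1 / 2) (286 * 400 * 20 * 157)
    _ (by positivity) (by norm_num) (by norm_num) hx (by positivity)
  refine ⟨max m₀ 1, fun m hm => ?_⟩
  have hm1 : 1 ≤ m := le_trans (le_max_right _ _) hm
  refine le_trans ?_ (hm₀ m (le_trans (le_max_left _ _) hm))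
  have hm1R : (1 : ℝ) ≤ m := by exact_mod_cast hm1
  have hp : (0 : ℝ) ≤ ((5 : ℝ) ^ 130 / 6 ^ 156) ^ m := by positivity
  have h1 : ((156 * (m : ℝ) + 130) * 400) * (20 * (156 * m + 1)) ≤ (286 * 400 * 20 * 157) * (m : ℝ) ^ 2 := by
    nlinarith
  calc ((156 * (m : ℝ) + 130) * 400) * (20 * (156 * m + 1) * ((5 : ℝ) ^ 130 / 6 ^ 156) ^ m)
      = (((156 * (m : ℝ) + 130) * 400) * (20 * (156 * m + 1))) * ((5 : ℝ) ^ 130 / 6 ^ 156) ^ m := by ring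
    _ ≤ ((286 * 400 * 20 * 157) * (m : ℝ) ^ 2) * ((5 : ℝ) ^ 130 / 6 ^ 156) ^ m :=
      mul_le_mul_of_nonneg_right h1 hp
    _ = _ := by ring

end Pool.Agent.Helper92.LP
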