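import Mathlib

/-! The mode of the binomial distribution with parameter `1 / (1 + b)`. -/

namespace Pool.Agent.Helper92.LP

private lemma mode_up (b n j : ℕ) (hj : j < n) :
    Nat.choose ((1 + b) * n) j * b ^ ((1 + b) * n - j) ≤
      Nat.choose ((1 + b) * n) (j + 1) * b ^ ((1 + b) * n - (j + 1)) := by
  have h0 : j + 1 ≤ (1 + b) * n := by nlinarith
  have h1 : Nat.choose ((1 + b) * n) j * b ≤ Nat.choose ((1 + b) * n) (j + 1) := by
    have h2 := Nat.choose_succ_right_eq ((1 + b) * n) j
    have h3 : b * (j + 1) ≤ (1 + b) * n - j := by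
      apply Nat.le_sub_of_add_le
      nlinarith [Nat.mul_le_mul_left b (Nat.succ_le_of_lt hj)]
    apply Nat.le_of_mul_le_mul_right _ (Nat.succ_pos j)
    rw [Nat.succ_eq_add_one, h2, mul_assoc]
    exact Nat.mul_le_mul_left _ h3
  have h4 : (1 + b) * n - j = ((1 + b) * n - (j + 1)) + 1 := by omega
  rw [h4, pow_succ, ← mul_assoc, mul_right_comm]
  exact Nat.mul_le_mul_right _ h1

private lemma mode_down (b n j : ℕ) (hj : n ≤ j) (hj' : j < (1 + b) * n) :
    Nat.choose ((1 + b) * n) (j + 1) * b ^ ((1 + b) * n - (j + 1)) ≤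
      Nat.choose ((1 + b) * n) j * b ^ ((1 + b) * n - j) := by
  have h1 : Nat.choose ((1 + b) * n) (j + 1) ≤ Nat.choose ((1 + b) * n) j * b := by
    have h2 := Nat.choose_succ_right_eq ((1 + b) * n) j
    have h3 : (1 + b) * n - j ≤ b * (j + 1) := by
      apply Nat.sub_le_of_le_add
      nlinarith [Nat.mul_le_mul_left b hj]
    apply Nat.le_of_mul_le_mul_right _ (Nat.succ_pos j)
    rw [Nat.succ_eq_add_one, h2, mul_assoc]
    exact Nat.mul_le_mul_left _ h3
  have h4 : (1 + b) * n - j = ((1 + b) * n - (j + 1)) + 1 := by omega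
  rw [h4, pow_succ, ← mul_assoc, mul_right_comm]
  exact Nat.mul_le_mul_right _ h1

/-- MO -/
lemma mode_lemma (b n : ℕ) (hb : 1 ≤ b) :
    (1 + b) ^ ((1 + b) * n) ≤ ((1 + b) * n + 1) * Nat.choose ((1 + b) * n) n * b ^ (b * n) := by
  have key : ∀ j, j ≤ (1 + b) * n →
      Nat.choose ((1 + b) * n) j * b ^ ((1 + b) * n - j) ≤
        Nat.choose ((1 + b) * n) n * b ^ ((1 + b) * n - n) := by
    have hup : ∀ k, ∀ j, j + k = n →
        Nat.choose ((1 + b) * n) j * b ^ ((1 + b) * n - j) ≤
          Nat.choose ((1 + b) * n) n * b ^ ((1 + b) * n - n) := by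
      intro k
      induction k with
      | zero => intro j hj; rw [add_zero] at hj; rw [hj]
      | succ k ih =>
        intro j hj
        exact (mode_up b n j (by omega)).trans (ih (j + 1) (by omega))
    have hdown : ∀ k, n + k ≤ (1 + b) * n →
        Nat.choose ((1 + b) * n) (n + k) * b ^ ((1 + b) * n - (n + k)) ≤
          Nat.choose ((1 + b) * n) n * b ^ ((1 + b) * n - n) := by
      intro k
      induction k with
      | zero => intro _; rfl
      | succ k ih =>
        intro hk
        exact (mode_down b n (n + k) (by omega) (by omega)).trans (ih (by omega))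
    intro j hj
    rcases le_total j n with h | h
    · exact hup (n - j) j (by omega)
    · obtain ⟨k, rfl⟩ := Nat.exists_eq_add_of_le h
      exact hdown k hj
  have hN : (1 + b) * n - n = b * n := by
    have : (1 + b) * n = n + b * n := by ring
    omega
  rw [add_pow]
  calc ∑ m ∈ Finset.range ((1 + b) * n + 1),
        1 ^ m * b ^ ((1 + b) * n - m) * ((1 + b) * n).choose m
      ≤ ∑ m ∈ Finset.range ((1 + b) * n + 1), Nat.choose ((1 + b) * n) n * b ^ (b * n) := by
        apply Finset.sum_le_sum
        intro m hm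
        rw [one_pow, one_mul, mul_comm, ← hN]
        exact key m (by rw [Finset.mem_range] at hm; omega)
    _ = ((1 + b) * n + 1) * Nat.choose ((1 + b) * n) n * b ^ (b * n) := by
        rw [Finset.sum_const, Finset.card_range, smul_eq_mul, mul_assoc]

end Pool.Agent.Helper92.LP
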