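import Pool.Agent.Helper92.LP.Geg
import Pool.Agent.Helper92.LP.BMO

/-!
Block NB: the bound of the squared norm `nn`.
-/

namespace Pool.Agent.Helper92.LP

namespace NB

/-- `nn` as a product -/
lemma nn_prod {D : ℝ} (hD : 0 < D) (k : ℕ) :
    nn D k = (∏ i ∈ Finset.range k, ((i : ℝ) + 1) / (i + D)) * (D / (2 * k + D)) := by
  induction k with
  | zero => simp [nn, hD.ne']
  | succ k ih =>
    rw [nn, ih, Finset.prod_range_succ]
    unfold cA cB
    have h1 : (2 * (k : ℝ) + D) ≠ 0 := by positivity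
    have h2 : ((k : ℝ) + D) ≠ 0 := by positivity
    have h3 : (2 * ((k : ℝ) + 1) + D) ≠ 0 := by positivity
    push_cast
    field_simp

lemma nn_le_prod {D : ℝ} {M : ℕ} (hM : 1 ≤ M) (hD : (M : ℝ) ≤ D) (k : ℕ) :
    nn D k ≤ ∏ i ∈ Finset.range k, ((i : ℝ) + 1) / (i + M) := by
  have hM' : (1 : ℝ) ≤ M := by exact_mod_cast hM
  have hD0 : 0 < D := by linarith
  rw [nn_prod hD0]
  have h1 : D / (2 * k + D) ≤ 1 := by
    rw [div_le_one (by positivity)]
    have : (0 : ℝ) ≤ k := Nat.cast_nonneg k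
    linarith
  have h2 : 0 ≤ ∏ i ∈ Finset.range k, ((i : ℝ) + 1) / (i + D) :=
    Finset.prod_nonneg fun i _ => by positivity
  calc _ ≤ (∏ i ∈ Finset.range k, ((i : ℝ) + 1) / (i + D)) * 1 :=
        mul_le_mul_of_nonneg_left h1 h2
    _ = ∏ i ∈ Finset.range k, ((i : ℝ) + 1) / (i + D) := mul_one _
    _ ≤ _ := by
        refine Finset.prod_le_prod (fun i _ => by positivity) fun i _ => ?_
        refine div_le_div_of_nonneg_left (by positivity) (by positivity) (by linarith)

lemma prod_choose (M n : ℕ) :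
    (∏ i ∈ Finset.range n, ((i : ℝ) + 1) / (i + 1 + M)) * (Nat.choose (M + n) n : ℝ) = 1 := by
  induction n with
  | zero => simp
  | succ n ih =>
    rw [Finset.prod_range_succ]
    have h := Nat.add_one_mul_choose_eq (M + n) n
    have h' : ((M : ℝ) + n + 1) * (Nat.choose (M + n) n : ℝ)
        = (Nat.choose (M + (n + 1)) (n + 1) : ℝ) * (n + 1) := by
      have := congrArg (Nat.cast : ℕ → ℝ) h
      push_cast at this
      rw [← add_assoc]
      linarith
    have h1 : ((n : ℝ) + 1 + M) ≠ 0 := by positivity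
    have h2 : (((n : ℝ) + 1) / (n + 1 + M)) * (Nat.choose (M + (n + 1)) (n + 1) : ℝ)
        = (Nat.choose (M + n) n : ℝ) := by
      field_simp
      linarith
    rw [mul_assoc, h2, ih]

lemma prod_shift {M : ℕ} (hM : 1 ≤ M) (k : ℕ) :
    ∏ i ∈ Finset.range k, ((i : ℝ) + 1) / (i + M)
      = (∏ i ∈ Finset.range k, ((i : ℝ) + 1) / (i + 1 + M)) * ((k + M) / M) := by
  have hM' : (1 : ℝ) ≤ M := by exact_mod_cast hM
  have hM0 : (M : ℝ) ≠ 0 := by positivity
  induction k with
  | zero => simp [hM0]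
  | succ k ih =>
    rw [Finset.prod_range_succ, Finset.prod_range_succ, ih]
    have h1 : ((k : ℝ) + M) ≠ 0 := by positivity
    have h2 : ((k : ℝ) + 1 + M) ≠ 0 := by positivity
    push_cast
    field_simp

end NB

/-- NB -/
lemma nn_bound {D : ℝ} {m : ℕ} (hm : 1 ≤ m) (hD : 130 * (m : ℝ) ≤ D) :
    nn D (10 * m - 2) ≤ 450 * (140 * m + 1) * ((13 : ℝ) ^ 130 / 14 ^ 140) ^ m := by
  have hm' : (1 : ℝ) ≤ m := by exact_mod_cast hm
  obtain ⟨k, hk⟩ : ∃ k, 10 * m = k + 2 := ⟨10 * m - 2, by omega⟩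
  have hk2 : 10 * m - 2 = k := by omega
  rw [hk2]
  have hkr : (k : ℝ) = 10 * m - 2 := by
    have : ((10 * m : ℕ) : ℝ) = ((k + 2 : ℕ) : ℝ) := by rw [hk]
    push_cast at this
    linarith
  have hM : 1 ≤ 130 * m := by omega
  have h1 := NB.nn_le_prod (M := 130 * m) hM (D := D) (by push_cast; linarith) k
  rw [NB.prod_shift hM] at h1
  have h2 := NB.prod_choose (130 * m) (k + 2)
  rw [Finset.prod_range_succ, Finset.prod_range_succ] at h2
  have hch : 130 * m + (k + 2) = 14 * (10 * m) := by omega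
  rw [hch, ← hk] at h2
  have h3 : 14 ^ (14 * (10 * m)) ≤ (14 * (10 * m) + 1) * Nat.choose (14 * (10 * m)) (10 * m)
      * 13 ^ (13 * (10 * m)) := mode_lemma 13 (10 * m) (by norm_num)
  set P : ℝ := ∏ i ∈ Finset.range k, ((i : ℝ) + 1) / (i + 1 + ((130 * m : ℕ) : ℝ)) with hP
  have hP0 : 0 ≤ P := Finset.prod_nonneg fun i _ => by positivity
  set C : ℝ := (Nat.choose (14 * (10 * m)) (10 * m) : ℝ) with hC
  have hC0 : 0 ≤ C := Nat.cast_nonneg _
  -- the lower bound of `C`
  have h3' : ((14 : ℝ) ^ 140) ^ m ≤ (140 * m + 1) * C * ((13 : ℝ) ^ 130) ^ m := by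
    have := (Nat.cast_le (α := ℝ)).2 h3
    push_cast at this
    have e1 : (14 : ℝ) ^ (14 * (10 * m)) = ((14 : ℝ) ^ 140) ^ m := by
      rw [← pow_mul]
      congr 1
      ring
    have e2 : (13 : ℝ) ^ (13 * (10 * m)) = ((13 : ℝ) ^ 130) ^ m := by
      rw [← pow_mul]
      congr 1
      ring
    rw [e1, e2] at this
    calc _ ≤ _ := this
      _ = _ := by rw [hC]; ring
  have h13 : (0 : ℝ) < ((14 : ℝ) ^ 140) ^ m := by positivity
  have hkey : P * (((k : ℝ) + 130 * m) / (130 * m)) ≤ 450 * (140 * m + 1) * ((13 : ℝ) ^ 130) ^ m /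
      ((14 : ℝ) ^ 140) ^ m := by
    rw [le_div_iff₀ h13]
    push_cast at h2
    have hk1 : ((k : ℝ) + 1) / (k + 1 + 130 * m) = (10 * m - 1) / (140 * m - 1) := by
      rw [hkr]; congr 1 <;> ring
    have hk3 : ((k : ℝ) + 1 + 1) / (k + 1 + 1 + 130 * m) = (10 * m) / (140 * m) := by
      rw [hkr]; congr 1 <;> ring
    rw [hk1, hk3] at h2
    have hk4 : ((k : ℝ) + 130 * m) / (130 * m) = (140 * m - 2) / (130 * m) := by
      rw [hkr]; congr 1; ring
    rw [hk4]
    have hmp : (0 : ℝ) < m := by linarith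
    have h10 : (0 : ℝ) < 10 * m - 1 := by linarith
    have h140 : (0 : ℝ) < 140 * m - 1 := by linarith
    have h140' : (0 : ℝ) ≤ 140 * m - 2 := by linarith
    -- `P * C` in terms of the ratio
    have hPC : P * C = ((140 * m - 1) / (10 * m - 1)) * 14 := by
      have e14 : (10 * (m : ℝ)) / (140 * m) = 1 / 14 := by
        field_simp
        norm_num
      rw [e14] at h2
      have hne1 := h10.ne'
      have hne2 := h140.ne'
      have hne3 : ((10 * (m : ℝ) - 1) / (140 * m - 1)) * ((140 * m - 1) / (10 * m - 1)) = 1 := by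
        rw [div_mul_div_comm, mul_comm (10 * (m : ℝ) - 1), div_self (mul_ne_zero hne2 hne1)]
      calc P * C = (P * C) * ((10 * (m : ℝ) - 1) / (140 * m - 1) *
            ((140 * m - 1) / (10 * m - 1))) := by rw [hne3, mul_one]
        _ = (P * ((10 * m - 1) / (140 * m - 1)) * (1 / 14) * C)
            * ((140 * m - 1) / (10 * m - 1) * 14) := by ring
        _ = _ := by rw [h2, one_mul]
    have hr1 : (140 * (m : ℝ) - 1) / (10 * m - 1) ≤ 16 := by
      rw [div_le_iff₀ h10]; linarith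
    have hr2 : (140 * (m : ℝ) - 2) / (130 * m) ≤ 2 := by
      rw [div_le_iff₀ (by positivity)]; linarith
    have hr0 : 0 ≤ (140 * (m : ℝ) - 2) / (130 * m) := by positivity
    have hr3 : 0 ≤ (140 * (m : ℝ) - 1) / (10 * m - 1) := by positivity
    calc P * ((140 * m - 2) / (130 * m)) * ((14 : ℝ) ^ 140) ^ m
        ≤ P * ((140 * m - 2) / (130 * m)) * ((140 * m + 1) * C * ((13 : ℝ) ^ 130) ^ m) :=
          mul_le_mul_of_nonneg_left h3' (mul_nonneg hP0 hr0)
      _ = (((140 * m - 2) / (130 * m)) * (P * C)) * ((140 * m + 1) * ((13 : ℝ) ^ 130) ^ m) := by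
          ring
      _ ≤ 450 * ((140 * m + 1) * ((13 : ℝ) ^ 130) ^ m) := by
          refine mul_le_mul_of_nonneg_right ?_ (by positivity)
          rw [hPC]
          nlinarith
      _ = _ := by ring
  push_cast at h1
  calc nn D k ≤ _ := h1
    _ = P * (((k : ℝ) + 130 * m) / (130 * m)) := by rfl
    _ ≤ _ := hkey
    _ = _ := by rw [div_pow]; ring

end Pool.Agent.Helper92.LP
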