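import Pool.Agent.Helper92.LP.Geg

/-!
Gauss quadrature for the polynomials `G_k` through the Jacobi matrix.
-/

namespace Pool.Agent.Helper92.LP

open Matrix

/-- off diagonal entries of the Jacobi matrix -/
noncomputable def aa (D : ℝ) (j : ℕ) : ℝ := Real.sqrt (cA D j * cB D (j + 1))

/-- Jacobi matrix -/
noncomputable def Jac (D : ℝ) (K : ℕ) : Matrix (Fin K) (Fin K) ℝ :=
  fun i j => if (i : ℕ) + 1 = j then aa D i else if (j : ℕ) + 1 = i then aa D j else 0

lemma Jac_herm (D : ℝ) (K : ℕ) : (Jac D K).IsHermitian := by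
  ext i j
  simp only [Matrix.conjTranspose_apply, Jac, star_trivial]
  by_cases h1 : (j : ℕ) + 1 = i
  · have h2 : ¬ ((i : ℕ) + 1 = j) := by omega
    simp [h1, h2]
  · by_cases h2 : (i : ℕ) + 1 = j
    · simp [h1, h2]
    · simp [h1, h2]

lemma aa_nonneg (D : ℝ) (j : ℕ) : 0 ≤ aa D j := Real.sqrt_nonneg _

/-- entries of `Jac *ᵥ u`, with `u` extended by zero -/
lemma Jac_mulVec (D : ℝ) (K : ℕ) (u : ℕ → ℝ) (hu : ∀ j, K ≤ j → u j = 0) (i : Fin K) :
    (Jac D K *ᵥ (fun j : Fin K => u j)) i
      = aa D i * u (i + 1) + (if (i : ℕ) = 0 then 0 else aa D (i - 1) * u (i - 1)) := by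
  unfold Matrix.mulVec dotProduct
  have e : ∀ j : Fin K, Jac D K i j * u j
      = (if (i : ℕ) + 1 = j then aa D i * u (i + 1) else 0)
        + (if (j : ℕ) + 1 = i then aa D (i - 1) * u (i - 1) else 0) := by
    intro j
    unfold Jac
    by_cases h1 : (i : ℕ) + 1 = j
    · have h2 : ¬ ((j : ℕ) + 1 = i) := by omega
      simp [h1, h2]
    · by_cases h2 : (j : ℕ) + 1 = i
      · have h3 : (i : ℕ) - 1 = j := by omega
        simp only [h1, h2, if_true, if_false, h3, zero_add]
      · simp [h1, h2]
  rw [Finset.sum_congr rfl (fun j _ => e j), Finset.sum_add_distrib]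
  congr 1
  · by_cases hi : (i : ℕ) + 1 < K
    · rw [Finset.sum_eq_single (⟨i + 1, hi⟩ : Fin K)]
      · simp
      · intro b _ hb
        have : ¬ ((i : ℕ) + 1 = b) := by
          intro h; apply hb; apply Fin.ext; simp [← h]
        simp [this]
      · intro h; exact absurd (Finset.mem_univ _) h
    · rw [hu (i + 1) (by omega)]
      simp
  · by_cases hi : (i : ℕ) = 0
    · rw [if_pos hi]
      apply Finset.sum_eq_zero
      intro j _
      have : ¬ ((j : ℕ) + 1 = i) := by omega
      simp [this]
    · rw [if_neg hi]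
      have hlt : (i : ℕ) - 1 < K := by have := i.2; omega
      rw [Finset.sum_eq_single (⟨i - 1, hlt⟩ : Fin K)]
      · have : (i : ℕ) - 1 + 1 = i := by omega
        simp [this]
      · intro b _ hb
        have : ¬ ((b : ℕ) + 1 = i) := by
          intro h; apply hb; apply Fin.ext; simp; omega
        simp [this]
      · intro h; exact absurd (Finset.mem_univ _) h

/-- square root of the squared norm -/
noncomputable def rr (D : ℝ) (k : ℕ) : ℝ := Real.sqrt (nn D k)

lemma rr_pos {D : ℝ} (hD : 0 < D) (k : ℕ) : 0 < rr D k := Real.sqrt_pos.2 (nn_pos hD k)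

lemma rr_sq {D : ℝ} (hD : 0 < D) (k : ℕ) : rr D k * rr D k = nn D k :=
  Real.mul_self_sqrt (nn_pos hD k).le

lemma rr_aa_succ {D : ℝ} (hD : 0 < D) (j : ℕ) : rr D j * aa D j = cA D j * rr D (j + 1) := by
  have h1 := nn_pos hD j
  have h2 := cA_pos hD j
  have h3 := cB_pos hD j
  unfold rr aa
  rw [← Real.sqrt_mul h1.le]
  have : cA D j = Real.sqrt (cA D j * cA D j) := (Real.sqrt_mul_self h2.le).symm
  conv_rhs => rw [this]
  rw [← Real.sqrt_mul (mul_pos h2 h2).le]
  congr 1
  simp only [nn]
  field_simp

lemma rr_aa_pred {D : ℝ} (hD : 0 < D) (j : ℕ) : rr D (j + 1) * aa D j = cB D (j + 1) * rr D j := by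
  have h1 := nn_pos hD (j + 1)
  have h2 := cA_pos hD j
  have h3 := cB_pos hD j
  unfold rr aa
  rw [← Real.sqrt_mul h1.le]
  have : cB D (j + 1) = Real.sqrt (cB D (j + 1) * cB D (j + 1)) := (Real.sqrt_mul_self h3.le).symm
  conv_rhs => rw [this]
  rw [← Real.sqrt_mul (mul_pos h3 h3).le]
  congr 1
  simp only [nn]
  field_simp

/-- eigenvector relation in the weighted coordinates gives the values of `G` -/
lemma G_of_eigen {D : ℝ} (hD : 0 < D) {K : ℕ} (u : ℕ → ℝ)
    (hu : ∀ j, K ≤ j → u j = 0) (μ : ℝ)
    (he : ∀ i, i < K → aa D i * u (i + 1) + (if i = 0 then 0 else aa D (i - 1) * u (i - 1))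
      = μ * u i) :
    (∀ j, j < K → G D μ j * u 0 = rr D j * u j) ∧ G D μ K * u 0 = 0 := by
  have r0 : rr D 0 = 1 := by simp [rr, nn]
  have main : ∀ j, j ≤ K → G D μ j * u 0 = rr D j * u j := by
    intro j
    induction j using Nat.strong_induction_on with
    | _ j ih =>
      intro hj
      rcases j with _ | j
      · simp [G, r0]
      · have h1 := he j (by omega)
        have h2 := ih j (by omega) (by omega)
        have hmul := G_mul hD μ j
        have hA := cA_pos hD j
        have key : cA D j * (G D μ (j + 1) * u 0) = cA D j * (rr D (j + 1) * u (j + 1)) := by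
          rcases j with _ | j
          · simp only [if_true, add_zero, Nat.zero_add] at h1
            have h4 := rr_aa_succ hD 0
            rw [r0, one_mul] at h4
            simp only [G, cA_zero hD, one_mul, Nat.zero_add]
            rw [← h1, h4, cA_zero hD, one_mul]
          · have h3 := ih j (by omega) (by omega)
            simp only [Nat.add_eq_zero_iff, one_ne_zero, and_false, if_false,
              Nat.add_sub_cancel] at h1 hmul
            have h4 := rr_aa_succ hD (j + 1)
            have h5 := rr_aa_pred hD j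
            have e1 : cA D (j + 1) * (G D μ (j + 1 + 1) * u 0)
                = μ * (G D μ (j + 1) * u 0) - cB D (j + 1) * (G D μ j * u 0) := by
              have : cA D (j + 1) * G D μ (j + 1 + 1) = μ * G D μ (j + 1) - cB D (j + 1) * G D μ j := by
                linarith
              calc _ = (cA D (j + 1) * G D μ (j + 1 + 1)) * u 0 := by ring
                _ = _ := by rw [this]; ring
            rw [e1, h2, h3]
            calc μ * (rr D (j + 1) * u (j + 1)) - cB D (j + 1) * (rr D j * u j)
                = rr D (j + 1) * (μ * u (j + 1)) - (cB D (j + 1) * rr D j) * u j := by ring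
              _ = rr D (j + 1) * (aa D (j + 1) * u (j + 1 + 1) + aa D j * u j)
                  - (rr D (j + 1) * aa D j) * u j := by rw [← h1, h5]
              _ = (rr D (j + 1) * aa D (j + 1)) * u (j + 1 + 1) := by ring
              _ = _ := by rw [h4]; ring
        exact mul_left_cancel₀ hA.ne' key
  refine ⟨fun j hj => main j hj.le, ?_⟩
  rw [main K le_rfl, hu K le_rfl, mul_zero]

/-- extension by zero -/
noncomputable def ext0 {K : ℕ} (v : Fin K → ℝ) (j : ℕ) : ℝ := if h : j < K then v ⟨j, h⟩ else 0

/-- Gauss quadrature: nodes are zeros of `G_K`, weights are nonnegative, `G_0, …, G_{K-1}` are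
orthogonal, and each node is bounded by a row sum of the Jacobi matrix. -/
theorem exists_gauss {D : ℝ} (hD : 0 < D) {K : ℕ} (hK : 1 ≤ K) :
    ∃ w x : Fin K → ℝ, (∀ i, 0 ≤ w i) ∧
      (∀ j k, j < K → k < K → ∑ i, w i * (G D (x i) j * G D (x i) k)
        = if j = k then nn D j else 0) ∧
      (∀ i, G D (x i) K = 0) ∧
      (∀ i, ∃ k, k < K ∧ |x i| ≤ (if k + 1 < K then aa D k else 0)
        + (if k = 0 then 0 else aa D (k - 1))) := by
  classical
  set hA := Jac_herm D K
  set μ := hA.eigenvalues with hμ
  set b := hA.eigenvectorBasis with hb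
  set u : Fin K → ℕ → ℝ := fun i => ext0 (fun j => b i j) with hu
  have hz : ∀ i j, K ≤ j → u i j = 0 := by
    intro i j hj
    simp only [hu, ext0]
    rw [dif_neg (by omega)]
  have hval : ∀ i (j : Fin K), u i j = b i j := by
    intro i j
    simp only [hu, ext0]
    rw [dif_pos j.2]
  have heig : ∀ i k, k < K → aa D k * u i (k + 1)
      + (if k = 0 then 0 else aa D (k - 1) * u i (k - 1)) = μ i * u i k := by
    intro i k hk
    have h1 := hA.mulVec_eigenvectorBasis i
    have h2 : (fun j : Fin K => u i j) = ⇑(b i) := by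
      funext j; exact hval i j
    have h3 := Jac_mulVec D K (u i) (hz i) ⟨k, hk⟩
    rw [h2, h1] at h3
    simp only [Pi.smul_apply, smul_eq_mul] at h3
    rw [← h3, ← hval i ⟨k, hk⟩]
  have hG : ∀ i, (∀ j, j < K → G D (μ i) j * u i 0 = rr D j * u i j) ∧ G D (μ i) K * u i 0 = 0 :=
    fun i => G_of_eigen hD (u i) (hz i) (μ i) (heig i)
  have hcol : ∀ j k : Fin K, ∑ i, u i j * u i k = if j = k then 1 else 0 := by
    intro j k
    have h1 : (hA.eigenvectorUnitary : Matrix (Fin K) (Fin K) ℝ)
        * star (hA.eigenvectorUnitary : Matrix (Fin K) (Fin K) ℝ) = 1 :=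
      Unitary.coe_mul_star_self _
    have h2 := congrFun (congrFun h1 j) k
    rw [Matrix.mul_apply, Matrix.one_apply] at h2
    rw [← h2]
    apply Finset.sum_congr rfl
    intro i _
    rw [hval, hval]
    simp [Matrix.star_apply, hb]
  have h0 : ∀ i, u i 0 ≠ 0 := by
    intro i h
    have hall : ∀ j : Fin K, b i j = 0 := by
      intro j
      have h1 := (hG i).1 j j.2
      rw [h, mul_zero] at h1
      have h2 := rr_pos hD (j : ℕ)
      have h3 : u i j = 0 := by
        rcases mul_eq_zero.1 h1.symm with h4 | h4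
        · exact absurd h4 h2.ne'
        · exact h4
      rw [← hval i j]; exact h3
    have h4 : b i = 0 := by
      ext j
      simpa using hall j
    have h5 := b.orthonormal.1 i
    rw [h4, norm_zero] at h5
    exact zero_ne_one h5
  refine ⟨fun i => u i 0 ^ 2, μ, fun i => sq_nonneg _, ?_, ?_, ?_⟩
  · intro j k hj hk
    have e : ∀ i, u i 0 ^ 2 * (G D (μ i) j * G D (μ i) k)
        = rr D j * rr D k * (u i (⟨j, hj⟩ : Fin K) * u i (⟨k, hk⟩ : Fin K)) := by
      intro i
      have h1 := (hG i).1 j hj
      have h2 := (hG i).1 k hk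
      calc _ = (G D (μ i) j * u i 0) * (G D (μ i) k * u i 0) := by ring
        _ = _ := by rw [h1, h2]; ring
    rw [Finset.sum_congr rfl (fun i _ => e i), ← Finset.mul_sum, hcol]
    by_cases hjk : j = k
    · subst hjk
      simp [rr_sq hD]
    · have : ¬ ((⟨j, hj⟩ : Fin K) = ⟨k, hk⟩) := by
        intro h; exact hjk (by simpa using h)
      simp [hjk]
  · intro i
    rcases mul_eq_zero.1 (hG i).2 with h | h
    · exact h
    · exact absurd h (h0 i)
  · intro i
    obtain ⟨k, -, hk⟩ := Finset.exists_max_image (Finset.univ : Finset (Fin K))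
      (fun j => |u i j|) ⟨⟨0, by omega⟩, Finset.mem_univ _⟩
    have hmax : ∀ j, |u i j| ≤ |u i k| := by
      intro j
      by_cases hj : j < K
      · exact hk ⟨j, hj⟩ (Finset.mem_univ _)
      · rw [hz i j (by omega)]; simp
    have hpos : 0 < |u i k| := by
      rcases lt_or_eq_of_le (abs_nonneg (u i k)) with h | h
      · exact h
      · exfalso
        have h1 := hmax 0
        rw [← h] at h1
        exact h0 i (abs_nonpos_iff.1 h1)
    refine ⟨k, k.2, ?_⟩
    have h1 := heig i k k.2
    have ha1 := aa_nonneg D (k : ℕ)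
    have ha2 := aa_nonneg D ((k : ℕ) - 1)
    have h2 : |μ i| * |u i k| ≤ ((if (k : ℕ) + 1 < K then aa D k else 0)
        + (if (k : ℕ) = 0 then 0 else aa D (k - 1))) * |u i k| := by
      rw [← abs_mul, ← h1, add_mul]
      refine (abs_add_le _ _).trans (add_le_add ?_ ?_)
      · rw [abs_mul, abs_of_nonneg ha1]
        by_cases hkk : (k : ℕ) + 1 < K
        · rw [if_pos hkk]
          exact mul_le_mul_of_nonneg_left (hmax _) ha1
        · rw [if_neg hkk, hz i _ (by omega)]
          simp
      · by_cases hk0 : (k : ℕ) = 0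
        · simp [hk0]
        · rw [if_neg hk0, if_neg hk0, abs_mul, abs_of_nonneg ha2]
          exact mul_le_mul_of_nonneg_left (hmax _) ha2
    exact le_of_mul_le_mul_right h2 hpos

end Pool.Agent.Helper92.LP
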