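import Pool.Agent.Helper92.LP.Ratio
import Pool.Agent.Helper92.LP.Gauss

/-!
Block ND: bounds for the nodes.
-/

namespace Pool.Agent.Helper92.LP

lemma aa_mono_ND {D : ℝ} (hD : 100 ≤ D) {j k : ℕ} (h : j ≤ k) : aa D j ≤ aa D k := by
  induction k, h using Nat.le_induction with
  | base => exact le_rfl
  | succ k _ ih =>
    refine ih.trans ?_
    unfold aa
    exact Real.sqrt_le_sqrt (ab_mono (by linarith) k)

/-- ND1 -/
lemma node_sq {D : ℝ} (hD : 100 ≤ D) {K : ℕ} (hK : 2 ≤ K) (x : ℝ)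
    (hx : ∃ k, k < K ∧ |x| ≤ (if k + 1 < K then aa D k else 0)
      + (if k = 0 then 0 else aa D (k - 1))) :
    x ^ 2 ≤ 4 * (cA D (K - 2) * cB D (K - 1)) := by
  obtain ⟨k, hk, h⟩ := hx
  have hD0 : (0:ℝ) < D := by linarith
  have h0 : 0 ≤ aa D (K - 2) := Real.sqrt_nonneg _
  have h1 : (if k + 1 < K then aa D k else 0) ≤ aa D (K - 2) := by
    split_ifs with hk1
    · exact aa_mono_ND hD (by omega)
    · exact h0
  have h2 : (if k = 0 then 0 else aa D (k - 1)) ≤ aa D (K - 2) := by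
    split_ifs with hk1
    · exact h0
    · exact aa_mono_ND hD (by omega)
  have h3 : |x| ≤ 2 * aa D (K - 2) := by linarith
  have h4 : aa D (K - 2) ^ 2 = cA D (K - 2) * cB D (K - 1) := by
    unfold aa
    rw [show K - 2 + 1 = K - 1 by omega]
    exact Real.sq_sqrt (mul_nonneg (cA_pos hD0 _).le (cB_nonneg hD0 _))
  have h5 : x ^ 2 = |x| ^ 2 := (sq_abs x).symm
  rw [h5, ← h4]
  have h6 := abs_nonneg x
  nlinarith [mul_self_le_mul_self h6 h3]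

/-- ND2 -/
lemma node_quarter {D : ℝ} (hD : 100 ≤ D) {K : ℕ} (hK : 2 ≤ K) (hKD : 13 * (K : ℝ) ≤ D) (x : ℝ)
    (hx : x ^ 2 ≤ 4 * (cA D (K - 2) * cB D (K - 1))) : x ^ 2 ≤ 1 / 4 := by
  obtain ⟨K, rfl⟩ : ∃ k, K = k + 2 := ⟨K - 2, by omega⟩
  refine hx.trans ?_
  have hD0 : (0:ℝ) < D := by linarith
  have hk : (0:ℝ) ≤ K := Nat.cast_nonneg K
  rw [show K + 2 - 2 = K by omega, show K + 2 - 1 = K + 1 by omega]
  unfold cA cB
  push_cast at hKD ⊢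
  have h1 : (0:ℝ) < 2 * K + D := by positivity
  have h2 : (0:ℝ) < 2 * (K + 1) + D := by positivity
  rw [div_mul_div_comm, ← mul_div_assoc, div_le_iff₀ (mul_pos h1 h2)]
  nlinarith [mul_nonneg hD0.le (sub_nonneg.mpr hKD), mul_nonneg hk (sub_nonneg.mpr hKD)]

/-- ND3 -/
lemma node_disc {D : ℝ} (hD : 100 ≤ D) {K : ℕ} (hK : 2 ≤ K) (hKD : 13 * (K : ℝ) ≤ D) (x : ℝ)
    (hx : x ^ 2 ≤ 4 * (cA D (K - 2) * cB D (K - 1))) : D / 4 ≤ disc D x K := by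
  obtain ⟨K, rfl⟩ : ∃ k, K = k + 2 := ⟨K - 2, by omega⟩
  have hD0 : (0:ℝ) < D := by linarith
  have hk : (0:ℝ) ≤ K := Nat.cast_nonneg K
  rw [show K + 2 - 2 = K by omega, show K + 2 - 1 = K + 1 by omega] at hx
  unfold cA cB at hx
  unfold disc
  push_cast at hKD hx ⊢
  have h1 : (0:ℝ) < 2 * K + D := by positivity
  have h2 : (0:ℝ) < 2 * (K + 1) + D := by positivity
  rw [div_mul_div_comm, ← mul_div_assoc, le_div_iff₀ (mul_pos h1 h2)] at hx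
  -- `y = 2K+4+D`
  obtain ⟨y, hy⟩ : ∃ y : ℝ, y = 2 * (K + 2) + D := ⟨_, rfl⟩
  have hK' : (K:ℝ) = (y - D) / 2 - 2 := by rw [hy]; ring
  have hyD : D ≤ y := by rw [hy]; linarith
  have hy13 : 13 * y ≤ 15 * D := by rw [hy]; linarith
  have e1 : 2 * (K:ℝ) + D = y - 4 := by rw [hy]; ring
  have e2 : 2 * ((K:ℝ) + 1) + D = y - 2 := by rw [hy]; ring
  have e3 : 4 * (((K:ℝ) + D) * (K + 1)) = (y - 3) ^ 2 - (D - 1) ^ 2 := by rw [hy]; ring
  have e4 : ((K:ℝ) + 2) * (K + 2 + D) = (y ^ 2 - D ^ 2) / 4 := by rw [hy]; ring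
  rw [e1, e2, e3] at hx
  rw [e1] at h1
  rw [e2] at h2
  rw [e4, ← hy]
  have hpos : 0 < (y - 4) * (y - 2) := mul_pos h1 h2
  -- it suffices to multiply by `(y-4)(y-2)`
  have key : y ^ 2 * x ^ 2 ≤ y ^ 2 - D ^ 2 - D := by
    have h3 : y ^ 2 * x ^ 2 * ((y - 4) * (y - 2)) ≤ (y ^ 2 - D ^ 2 - D) * ((y - 4) * (y - 2)) := by
      have h4 : y ^ 2 * (x ^ 2 * ((y - 4) * (y - 2))) ≤ y ^ 2 * ((y - 3) ^ 2 - (D - 1) ^ 2) :=
        mul_le_mul_of_nonneg_left hx (sq_nonneg y)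
      have h5 : (y ^ 2 - D ^ 2 - D) * ((y - 4) * (y - 2)) - y ^ 2 * ((y - 3) ^ 2 - (D - 1) ^ 2)
          = D * (-3 * y ^ 2 + 6 * D * y + 6 * y - 8 * D - 8) := by ring
      have h6 : 0 ≤ -3 * y ^ 2 + 6 * D * y + 6 * y - 8 * D - 8 := by
        nlinarith [mul_nonneg (show (0:ℝ) ≤ y by linarith) (sub_nonneg.mpr hy13),
          mul_nonneg (show (0:ℝ) ≤ y - D by linarith) hD0.le,
          mul_nonneg (show (0:ℝ) ≤ D - 100 by linarith) hD0.le]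
      have h7 := mul_nonneg hD0.le h6
      nlinarith [h4, h5, h7]
    exact le_of_mul_le_mul_right h3 hpos
  linarith

end Pool.Agent.Helper92.LP
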