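import Pool.Agent.Helper92.LP.Energy

namespace Pool.Agent.Helper92.LP

lemma PP_anti {D : ℝ} (hD : 1 ≤ D) {K k₀ k : ℕ} (h0 : K ≤ k₀) (h : k₀ ≤ k) :
    ((k : ℝ) + D) * PP D K k ≤ (k₀ + D) * PP D K k₀ := by
  have hD0 : 0 < D := by linarith
  induction k, h using Nat.le_induction with
  | base => exact le_rfl
  | succ k hk ih =>
    have hP := PP_nonneg hD0 K k
    rw [PP_succ (h0.trans hk)]
    push_cast
    have hq : (0 : ℝ) < (k : ℝ) + 1 + D := by positivity
    have e : ((k : ℝ) + 1 + D) * (PP D K k * (((k : ℝ) + 1) / (k + 1 + D))) = (k + 1) * PP D K k := by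
      field_simp
    rw [e]
    refine le_trans ?_ ih
    exact mul_le_mul_of_nonneg_right (by linarith) hP

lemma G_bounded {D x : ℝ} (hD : 1 ≤ D) (hx : x ^ 2 ≤ 1) {K : ℕ} (hK1 : 1 ≤ K)
    (h : 0 < disc D x K) (hK : G D x K = 0) : ∃ C, ∀ k, |G D x k| ≤ C := by
  have hD0 : 0 < D := by linarith
  set B := ((K : ℝ) + D) * (K ^ 2 / (K + D)) * G D x (K - 1) ^ 2 / disc D x K with hB
  refine ⟨(∑ j ∈ Finset.range K, |G D x j|) + Real.sqrt B, fun k => ?_⟩
  by_cases hk : k < K
  · have h1 : |G D x k| ≤ ∑ j ∈ Finset.range K, |G D x j| :=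
      Finset.single_le_sum (f := fun j => |G D x j|) (fun i _ => abs_nonneg _)
        (Finset.mem_range.2 hk)
    have := Real.sqrt_nonneg B
    linarith
  · have hk' : K ≤ k := by omega
    have h1 := G_sq_bound hD0 hx hK1 h hK k hk'
    have h2 := PP_anti hD (le_refl K) hk'
    have h3 : PP D K K = 1 := by unfold PP; simp
    rw [h3, mul_one] at h2
    have h4 : G D x k ^ 2 ≤ B := by
      rw [hB, le_div_iff₀ h]
      calc G D x k ^ 2 * disc D x K = disc D x K * G D x k ^ 2 := by ring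
        _ ≤ _ := h1
        _ ≤ _ := by
          apply mul_le_mul_of_nonneg_right _ (sq_nonneg _)
          exact mul_le_mul_of_nonneg_right h2 (by positivity)
    have h5 : |G D x k| ≤ Real.sqrt B := by
      rw [← Real.sqrt_sq_eq_abs]
      exact Real.sqrt_le_sqrt h4
    have h6 : 0 ≤ ∑ j ∈ Finset.range K, |G D x j| := Finset.sum_nonneg (fun i _ => abs_nonneg _)
    linarith

end Pool.Agent.Helper92.LP
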