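import Pool.Agent.Helper92.LP.Ratio
import Pool.Agent.Helper92.LP.Gauss

/-!
# Block PB: the bound of `PP * nn`
-/

namespace Pool.Agent.Helper92.LP

namespace PB

open Finset

/-- `∏_{j=1}^{k} j / (j + M)`. -/
noncomputable def QQ (M : ℝ) (k : ℕ) : ℝ := ∏ j ∈ range k, (((j : ℝ) + 1) / (j + 1 + M))

lemma QQ_succ (M : ℝ) (k : ℕ) : QQ M (k + 1) = QQ M k * (((k : ℝ) + 1) / (k + 1 + M)) := by
  unfold QQ
  rw [prod_range_succ]

lemma QQ_pos {M : ℝ} (hM : 0 < M) (k : ℕ) : 0 < QQ M k := by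
  unfold QQ
  exact prod_pos fun j _ => by positivity

/-- `nn` in closed form. -/
lemma nn_closed {D : ℝ} (hD : 0 < D) (k : ℕ) :
    (2 * (k : ℝ) + D) * nn D k = D * ∏ i ∈ range k, (((i : ℝ) + 1) / (i + D)) := by
  induction k with
  | zero => simp [nn]
  | succ k ih =>
    rw [prod_range_succ, ← mul_assoc, ← ih]
    have h1 : nn D (k + 1) = nn D k * cB D (k + 1) / cA D k := rfl
    rw [h1, cA, cB]
    push_cast
    have h2 : (2 * (k : ℝ) + D) ≠ 0 := by positivity
    have h3 : (2 * ((k : ℝ) + 1) + D) ≠ 0 := by positivity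
    have h4 : ((k : ℝ) + D) ≠ 0 := by positivity
    field_simp

lemma nn_le_prod {D M : ℝ} (hM : 0 < M) (h : M ≤ D) (k : ℕ) :
    nn D k ≤ ∏ i ∈ range k, (((i : ℝ) + 1) / (i + M)) := by
  have hD : 0 < D := hM.trans_le h
  have h1 := nn_closed hD k
  have h2 : ∏ i ∈ range k, (((i : ℝ) + 1) / (i + D)) ≤ ∏ i ∈ range k, (((i : ℝ) + 1) / (i + M)) :=
    prod_le_prod (fun i _ => by positivity) (fun i _ => by gcongr)
  refine le_trans ?_ h2
  have h3 : 0 < 2 * (k : ℝ) + D := by positivity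
  have h4 : 0 ≤ ∏ i ∈ range k, (((i : ℝ) + 1) / (i + D)) := prod_nonneg fun i _ => by positivity
  rw [← mul_le_mul_iff_right₀ h3, h1]
  apply mul_le_mul_of_nonneg_right _ h4
  have : (0 : ℝ) ≤ k := k.cast_nonneg
  linarith

/-- shifted product. -/
lemma prod_shift {M : ℝ} (hM : 0 < M) (k : ℕ) :
    M * ∏ i ∈ range k, (((i : ℝ) + 1) / (i + M)) = (k + M) * QQ M k := by
  induction k with
  | zero => simp [QQ]
  | succ k ih =>
    rw [prod_range_succ, ← mul_assoc, ih, QQ_succ]
    push_cast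
    have h4 : ((k : ℝ) + M) ≠ 0 := by positivity
    have h5 : ((k : ℝ) + 1 + M) ≠ 0 := by positivity
    field_simp

lemma PP_le {D M : ℝ} (hM : 0 < M) (h : M ≤ D) {K k : ℕ} (hk : K ≤ k) :
    PP D K k * QQ M K ≤ QQ M k := by
  have hD : 0 < D := hM.trans_le h
  induction k, hk using Nat.le_induction with
  | base =>
    have : PP D K K = 1 := by
      unfold PP
      simp
    rw [this, one_mul]
  | succ k hk ih =>
    rw [PP_succ hk, QQ_succ]
    calc PP D K k * (((k : ℝ) + 1) / (k + 1 + D)) * QQ M K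
        = (PP D K k * QQ M K) * (((k : ℝ) + 1) / (k + 1 + D)) := by ring
      _ ≤ QQ M k * (((k : ℝ) + 1) / (k + 1 + M)) := by
        apply mul_le_mul ih _ (by positivity) (QQ_pos hM k).le
        gcongr

/-- `QQ` is the inverse of a binomial coefficient. -/
lemma QQ_choose (a k : ℕ) : QQ (a : ℝ) k * (Nat.choose (a + k) k : ℝ) = 1 := by
  induction k with
  | zero => simp [QQ]
  | succ k ih =>
    rw [QQ_succ]
    have h1 : (Nat.choose (a + (k + 1)) (k + 1) : ℝ) * (k + 1) =
        (Nat.choose (a + k) k : ℝ) * (a + k + 1) := by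
      have := Nat.add_one_mul_choose_eq (a + k) k
      have h2 : ((a + k + 1 : ℕ) : ℝ) * (Nat.choose (a + k) k : ℝ) =
          (Nat.choose (a + k + 1) (k + 1) : ℝ) * ((k + 1 : ℕ) : ℝ) := by exact_mod_cast this
      push_cast at h2
      rw [show a + (k + 1) = a + k + 1 by ring]
      linarith
    have h3 : ((k : ℝ) + 1 + a) ≠ 0 := by positivity
    calc QQ (a : ℝ) k * (((k : ℝ) + 1) / (k + 1 + a)) * (Nat.choose (a + (k + 1)) (k + 1) : ℝ)
        = QQ (a : ℝ) k * ((Nat.choose (a + (k + 1)) (k + 1) : ℝ) * (k + 1)) / (k + 1 + a) := by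
          field_simp
      _ = (QQ (a : ℝ) k * (Nat.choose (a + k) k : ℝ)) * ((a + k + 1) / (k + 1 + a)) := by
          rw [h1]; ring
      _ = 1 := by
          rw [ih, one_mul, div_eq_one_iff_eq h3]
          ring

/-- the part of `PP_bound` before the mode lemma. -/
lemma PP_bound_choose {D : ℝ} {m : ℕ} (hm : 1 ≤ m) (hD : 130 * (m : ℝ) ≤ D) :
    PP D (10 * m - 1) (26 * m) * nn D (10 * m - 2) * (Nat.choose (156 * m) (26 * m) : ℝ) ≤ 20 := by
  have hm' : (1 : ℝ) ≤ m := by exact_mod_cast hm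
  have hM : (0 : ℝ) < 130 * m := by positivity
  obtain ⟨j, hj⟩ : ∃ j, 10 * m = j + 2 := ⟨10 * m - 2, by omega⟩
  have hj1 : 10 * m - 1 = j + 1 := by omega
  have hj2 : 10 * m - 2 = j := by omega
  have hjr : 10 * (m : ℝ) = j + 2 := by exact_mod_cast hj
  rw [hj1, hj2]
  have hD0 : 0 < D := hM.trans_le hD
  have h1 := PP_le hM hD (K := j + 1) (k := 26 * m) (by omega)
  have h2 := nn_le_prod hM hD j
  have h3 := prod_shift hM j
  have h4 := QQ_choose (130 * m) (26 * m)
  rw [show 130 * m + 26 * m = 156 * m by ring] at h4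
  push_cast at h4
  rw [QQ_succ] at h1
  have hQj := QQ_pos hM j
  have hC : (0 : ℝ) < (Nat.choose (156 * m) (26 * m) : ℝ) := by
    exact_mod_cast Nat.choose_pos (by omega)
  have hP := PP_nonneg hD0 (j + 1) (26 * m)
  set Q := QQ (130 * (m : ℝ)) j with hQdef
  set P := PP D (j + 1) (26 * m) with hPdef
  set N := nn D j with hN
  set R := ∏ i ∈ range j, (((i : ℝ) + 1) / (i + 130 * m)) with hR
  set C := (Nat.choose (156 * m) (26 * m) : ℝ) with hCdef
  set W := QQ (130 * (m : ℝ)) (26 * m) with hW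
  -- `P * Q * ((j+1)/(j+1+130 m)) ≤ W`, `W * C = 1`, `130 m * R = (j + 130 m) Q`, `N ≤ R`
  have hj0 : (0 : ℝ) ≤ j := j.cast_nonneg
  have e1 : P * Q * (j + 1) ≤ W * (j + 1 + 130 * m) := by
    have h5 : (0 : ℝ) < j + 1 + 130 * m := by positivity
    have h6 := mul_le_mul_of_nonneg_right h1 h5.le
    have h7 : P * (Q * (((j : ℝ) + 1) / (j + 1 + 130 * m))) * (j + 1 + 130 * m) =
        P * Q * (j + 1) := by
      field_simp
    linarith
  have e2 : P * Q * C * (j + 1) ≤ j + 1 + 130 * m := by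
    calc P * Q * C * (j + 1) = (P * Q * (j + 1)) * C := by ring
      _ ≤ (W * (j + 1 + 130 * m)) * C := mul_le_mul_of_nonneg_right e1 hC.le
      _ = (W * C) * (j + 1 + 130 * m) := by ring
      _ = j + 1 + 130 * m := by rw [h4, one_mul]
  have e3 : P * N * C * (130 * m) ≤ (j + 130 * m) * (P * Q * C) := by
    calc P * N * C * (130 * m) ≤ P * R * C * (130 * m) := by gcongr
      _ = (130 * m * R) * (P * C) := by ring
      _ = (j + 130 * m) * (P * Q * C) := by rw [h3]; ring
  -- conclusion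
  set Z := P * Q * C with hZ
  have e4 : P * N * C * (130 * m) * (j + 1) ≤ (j + 130 * m) * (j + 1 + 130 * m) := by
    calc P * N * C * (130 * m) * (j + 1) ≤ (j + 130 * m) * Z * (j + 1) := by
          apply mul_le_mul_of_nonneg_right e3 (by positivity)
      _ = (j + 130 * m) * (Z * (j + 1)) := by ring
      _ ≤ (j + 130 * m) * (j + 1 + 130 * m) := by
          apply mul_le_mul_of_nonneg_left e2 (by positivity)
  have e5 : (j : ℝ) = 10 * m - 2 := by linarith
  have e6 : ((j : ℝ) + 130 * m) * (j + 1 + 130 * m) ≤ 20 * ((130 * m) * (j + 1)) := by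
    rw [e5]
    nlinarith
  have e7 : (0 : ℝ) < (130 * m) * (j + 1) := by positivity
  have e8 : P * N * C * ((130 * m) * (j + 1)) ≤ 20 * ((130 * m) * (j + 1)) := by
    calc P * N * C * ((130 * m) * (j + 1)) = P * N * C * (130 * m) * (j + 1) := by ring
      _ ≤ _ := e4.trans e6
  exact le_of_mul_le_mul_right e8 e7

/-- `PP_bound` from the mode lemma. -/
lemma PP_bound_of_mode {D : ℝ} {m : ℕ} (hm : 1 ≤ m) (hD : 130 * (m : ℝ) ≤ D)
    (hmode : (1 + 5) ^ ((1 + 5) * (26 * m)) ≤
      ((1 + 5) * (26 * m) + 1) * Nat.choose ((1 + 5) * (26 * m)) (26 * m) * 5 ^ (5 * (26 * m))) :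
    PP D (10 * m - 1) (26 * m) * nn D (10 * m - 2)
      ≤ 20 * (156 * m + 1) * ((5 : ℝ) ^ 130 / 6 ^ 156) ^ m := by
  have h1 := PP_bound_choose hm hD
  have e1 : (1 + 5) * (26 * m) = 156 * m := by ring
  have e2 : 5 * (26 * m) = 130 * m := by ring
  rw [e1, e2] at hmode
  have h2 : (6 : ℝ) ^ (156 * m) ≤
      (156 * m + 1) * (Nat.choose (156 * m) (26 * m) : ℝ) * 5 ^ (130 * m) := by
    have : ((((1 + 5) ^ (156 * m) : ℕ)) : ℝ) ≤
        (((156 * m + 1) * Nat.choose (156 * m) (26 * m) * 5 ^ (130 * m) : ℕ) : ℝ) := by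
      exact_mod_cast hmode
    push_cast at this
    exact this
  set X := PP D (10 * m - 1) (26 * m) * nn D (10 * m - 2) with hX
  set C := (Nat.choose (156 * m) (26 * m) : ℝ) with hC
  have hM : (0 : ℝ) < 130 * m := by
    have hm' : (1 : ℝ) ≤ m := by exact_mod_cast hm
    positivity
  have hD0 : 0 < D := hM.trans_le hD
  have hX0 : 0 ≤ X := mul_nonneg (PP_nonneg hD0 _ _) (nn_pos hD0 _).le
  rw [div_pow, ← pow_mul, ← pow_mul, ← mul_div_assoc, le_div_iff₀ (by positivity)]
  calc X * 6 ^ (156 * m) ≤ X * ((156 * m + 1) * C * 5 ^ (130 * m)) :=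
        mul_le_mul_of_nonneg_left h2 hX0
    _ = (X * C) * ((156 * m + 1) * 5 ^ (130 * m)) := by ring
    _ ≤ 20 * ((156 * m + 1) * 5 ^ (130 * m)) := by
        apply mul_le_mul_of_nonneg_right h1 (by positivity)
    _ = 20 * (156 * m + 1) * 5 ^ (130 * m) := by ring

/-- the mode lemma (own copy). -/
lemma mode_lemma_PB (b n : ℕ) (hb : 1 ≤ b) :
    (1 + b) ^ ((1 + b) * n) ≤ ((1 + b) * n + 1) * Nat.choose ((1 + b) * n) n * b ^ (b * n) := by
  obtain ⟨N, hN⟩ : ∃ N, N = (1 + b) * n := ⟨_, rfl⟩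
  rw [← hN]
  have hNn : N - n = b * n := by
    rw [hN, add_mul, one_mul, Nat.add_sub_cancel_left]
  have step : ∀ j, j < N → (j + 1) * (Nat.choose N (j + 1) * b ^ (N - (j + 1))) =
      (N - j) * (Nat.choose N j * b ^ (N - (j + 1))) := by
    intro j _
    have := Nat.choose_succ_right_eq N j
    calc (j + 1) * (Nat.choose N (j + 1) * b ^ (N - (j + 1)))
        = (Nat.choose N (j + 1) * (j + 1)) * b ^ (N - (j + 1)) := by ring
      _ = (N - j) * (Nat.choose N j * b ^ (N - (j + 1))) := by rw [this]; ring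
  have hpw : ∀ j, j < N → b ^ (N - j) = b * b ^ (N - (j + 1)) := by
    intro j hj
    rw [← pow_succ']
    congr 1
    omega
  have up : ∀ j, j < n → Nat.choose N j * b ^ (N - j) ≤
      Nat.choose N (j + 1) * b ^ (N - (j + 1)) := by
    intro j hj
    have hjN : j < N := by
      rw [hN]
      nlinarith
    apply Nat.le_of_mul_le_mul_left _ (Nat.succ_pos j)
    rw [step j hjN, hpw j hjN]
    have h1 : (j + 1) * b ≤ N - j := by
      apply Nat.le_sub_of_add_le
      rw [hN]
      nlinarith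
    calc (j + 1) * (Nat.choose N j * (b * b ^ (N - (j + 1))))
        = ((j + 1) * b) * (Nat.choose N j * b ^ (N - (j + 1))) := by ring
      _ ≤ (N - j) * (Nat.choose N j * b ^ (N - (j + 1))) := Nat.mul_le_mul_right _ h1
  have down : ∀ j, n ≤ j → j < N → Nat.choose N (j + 1) * b ^ (N - (j + 1)) ≤
      Nat.choose N j * b ^ (N - j) := by
    intro j hj hjN
    apply Nat.le_of_mul_le_mul_left _ (Nat.succ_pos j)
    rw [step j hjN, hpw j hjN]
    have h1 : N - j ≤ (j + 1) * b := by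
      have h2 : N - j ≤ N - n := Nat.sub_le_sub_left hj N
      rw [hNn] at h2
      nlinarith
    calc (N - j) * (Nat.choose N j * b ^ (N - (j + 1)))
        ≤ ((j + 1) * b) * (Nat.choose N j * b ^ (N - (j + 1))) := Nat.mul_le_mul_right _ h1
      _ = (j + 1) * (Nat.choose N j * (b * b ^ (N - (j + 1)))) := by ring
  have hmax : ∀ j, j ≤ N → Nat.choose N j * b ^ (N - j) ≤ Nat.choose N n * b ^ (N - n) := by
    intro j hj
    rcases le_total j n with h | h
    · induction h using Nat.decreasingInduction with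
      | self => exact le_rfl
      | of_succ j hj' ih =>
        exact (up j hj').trans (ih (by
          have : n ≤ N := by rw [hN]; nlinarith
          omega))
    · induction j, h using Nat.le_induction with
      | base => exact le_rfl
      | succ j hj' ih => exact (down j hj' (by omega)).trans (ih (by omega))
  rw [add_pow]
  calc ∑ j ∈ range (N + 1), 1 ^ j * b ^ (N - j) * (Nat.choose N j)
      ≤ ∑ j ∈ range (N + 1), Nat.choose N n * b ^ (N - n) := by
        apply sum_le_sum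
        intro j hj
        rw [mem_range] at hj
        have := hmax j (by omega)
        rw [one_pow, one_mul, mul_comm]
        exact this
    _ = (N + 1) * Nat.choose N n * b ^ (b * n) := by
        rw [sum_const, card_range, smul_eq_mul, hNn, mul_assoc]

end PB

/-- PB -/
lemma PP_bound {D : ℝ} {m : ℕ} (hm : 1 ≤ m) (hD : 130 * (m : ℝ) ≤ D) :
    PP D (10 * m - 1) (26 * m) * nn D (10 * m - 2)
      ≤ 20 * (156 * m + 1) * ((5 : ℝ) ^ 130 / 6 ^ 156) ^ m :=
  PB.PP_bound_of_mode hm hD (PB.mode_lemma_PB 5 (26 * m) (by norm_num))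

end Pool.Agent.Helper92.LP
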