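import Pool.Agent.Helper92.LP.Ratio

/-!
The product of the upper ratios: pairing and AM-GM.
-/

namespace Pool.Agent.Helper92.LP

lemma SU_nonneg {D : ℝ} (hD : 0 ≤ D) (k : ℕ) : 0 ≤ SU D k := by
  unfold SU
  positivity

/-- upper bound for a ratio with `k + 2 = 10 m + 2 l` -/
lemma SU_le {D : ℝ} {m : ℕ} (hm : 1 ≤ m) (h1 : 130 * (m : ℝ) ≤ D) (k : ℕ) :
    SU D k ≤ 523 / 1000 + 256 / 100 * (k / (130 * m)) := by
  have hm0 : (0 : ℝ) < m := by exact_mod_cast hm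
  unfold SU
  have : (k : ℝ) / D ≤ k / (130 * m) := by
    apply div_le_div_of_nonneg_left (Nat.cast_nonneg _) (by positivity) h1
  linarith

lemma SU_le' {D : ℝ} {m : ℕ} (hm : 1 ≤ m) (h1 : 130 * (m : ℝ) ≤ D) (k c : ℕ) (h : k ≤ c * m) :
    SU D k ≤ 523 / 1000 + 256 / 100 * (c / 130) := by
  have hm0 : (0 : ℝ) < m := by exact_mod_cast hm
  refine (SU_le hm h1 k).trans ?_
  have h2 : (k : ℝ) ≤ c * m := by exact_mod_cast h
  have : (k : ℝ) / (130 * m) ≤ c / 130 := by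
    rw [div_le_div_iff₀ (by positivity) (by norm_num)]
    nlinarith
  linarith

lemma SU_pair {D : ℝ} {m : ℕ} (hm : 1 ≤ m) (h1 : 130 * (m : ℝ) ≤ D) {l : ℕ} (hl : l < 5 * m) :
    SU D (10 * m - 2 + 2 * l) * SU D (10 * m - 2 + 2 * (5 * m - 1 - l)) ≤ (81839 / 100000) ^ 2 := by
  have hm0 : (0 : ℝ) < m := by exact_mod_cast hm
  have hD0 : 0 < D := by nlinarith
  obtain ⟨a, ha⟩ : ∃ a : ℕ, a = 10 * m - 2 + 2 * l := ⟨_, rfl⟩
  obtain ⟨b, hb⟩ : ∃ b : ℕ, b = 10 * m - 2 + 2 * (5 * m - 1 - l) := ⟨_, rfl⟩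
  rw [← ha, ← hb]
  have hab : a + b ≤ 30 * m := by omega
  have hab' : (a : ℝ) + b ≤ 30 * m := by exact_mod_cast hab
  have hs : SU D a + SU D b ≤ 2 * (81839 / 100000) := by
    unfold SU
    have : (a : ℝ) / D + b / D ≤ 30 / 130 := by
      rw [← add_div, div_le_div_iff₀ hD0 (by norm_num)]
      nlinarith
    linarith
  have ha0 := SU_nonneg hD0.le a
  have hb0 := SU_nonneg hD0.le b
  nlinarith [sq_nonneg (SU D a - SU D b), mul_self_le_mul_self (add_nonneg ha0 hb0) hs]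

lemma S_head {D : ℝ} {m : ℕ} (hm : 1 ≤ m) (h1 : 130 * (m : ℝ) ≤ D) :
    (∏ l ∈ Finset.range (5 * m), SU D (10 * m - 2 + 2 * l)) ^ 2 ≤ (81839 / 100000) ^ (10 * m) := by
  have hm0 : (0 : ℝ) < m := by exact_mod_cast hm
  have hD0 : 0 ≤ D := by nlinarith
  have e := Finset.prod_range_reflect (fun l => SU D (10 * m - 2 + 2 * l)) (5 * m)
  rw [sq]
  nth_rewrite 2 [← e]
  rw [← Finset.prod_mul_distrib]
  calc ∏ l ∈ Finset.range (5 * m), SU D (10 * m - 2 + 2 * l) *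
        SU D (10 * m - 2 + 2 * (5 * m - 1 - l))
      ≤ ∏ _l ∈ Finset.range (5 * m), (81839 / 100000 : ℝ) ^ 2 :=
        Finset.prod_le_prod (fun l _ => mul_nonneg (SU_nonneg hD0 _) (SU_nonneg hD0 _))
          (fun l hl => SU_pair hm h1 (Finset.mem_range.mp hl))
    _ = _ := by
      rw [Finset.prod_const, Finset.card_range, ← pow_mul]
      congr 1
      omega

lemma S_tail {D : ℝ} {m : ℕ} (hm : 1 ≤ m) (h1 : 130 * (m : ℝ) ≤ D) (s : ℕ)
    (hs1 : 5 * m ≤ s) (hs2 : s ≤ 8 * m + 1) :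
    ∏ l ∈ Finset.range s, SU D (10 * m - 2 + 2 * l)
      ≤ (∏ l ∈ Finset.range (5 * m), SU D (10 * m - 2 + 2 * l)) * (1036 / 1000) ^ (s - 7 * m) := by
  have hm0 : (0 : ℝ) < m := by exact_mod_cast hm
  have hD0 : 0 ≤ D := by nlinarith
  induction s, hs1 using Nat.le_induction with
  | base =>
    have : 5 * m - 7 * m = 0 := by omega
    rw [this, pow_zero, mul_one]
  | succ s hs ih =>
    have ih' := ih (by omega)
    rw [Finset.prod_range_succ]
    have hP : 0 ≤ ∏ l ∈ Finset.range (5 * m), SU D (10 * m - 2 + 2 * l) :=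
      Finset.prod_nonneg fun l _ => SU_nonneg hD0 _
    rcases Nat.lt_or_ge s (7 * m) with h | h
    · have e1 : s + 1 - 7 * m = 0 := by omega
      have e2 : s - 7 * m = 0 := by omega
      rw [e1]
      rw [e2] at ih'
      have hS : SU D (10 * m - 2 + 2 * s) ≤ 1 := by
        refine (SU_le' hm h1 _ 24 (by omega)).trans (by norm_num)
      calc _ ≤ (∏ l ∈ Finset.range s, SU D (10 * m - 2 + 2 * l)) * 1 :=
            mul_le_mul_of_nonneg_left hS (Finset.prod_nonneg fun l _ => SU_nonneg hD0 _)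
        _ = _ := mul_one _
        _ ≤ _ := ih'
    · have e1 : s + 1 - 7 * m = (s - 7 * m) + 1 := by omega
      rw [e1, pow_succ, ← mul_assoc]
      have hS : SU D (10 * m - 2 + 2 * s) ≤ 1036 / 1000 := by
        refine (SU_le' hm h1 _ 26 (by omega)).trans (by norm_num)
      exact mul_le_mul ih' hS (SU_nonneg hD0 _) (by positivity)

/-- SB -/
lemma S_prod {D : ℝ} {m : ℕ} (hm : 1 ≤ m) (h1 : 130 * (m : ℝ) ≤ D) (s : ℕ)
    (hs1 : 5 * m ≤ s) (hs2 : s ≤ 8 * m + 1) :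
    (∏ l ∈ Finset.range s, SU D (10 * m - 2 + 2 * l)) ^ 2
      ≤ (81839 / 100000) ^ (10 * m) * (1036 / 1000) ^ (2 * m + 2) := by
  have hm0 : (0 : ℝ) < m := by exact_mod_cast hm
  have hD0 : 0 ≤ D := by nlinarith
  have h2 := S_tail hm h1 s hs1 hs2
  have h3 := S_head hm h1
  have h0 : 0 ≤ ∏ l ∈ Finset.range s, SU D (10 * m - 2 + 2 * l) :=
    Finset.prod_nonneg fun l _ => SU_nonneg hD0 _
  calc (∏ l ∈ Finset.range s, SU D (10 * m - 2 + 2 * l)) ^ 2
      ≤ ((∏ l ∈ Finset.range (5 * m), SU D (10 * m - 2 + 2 * l)) *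
          (1036 / 1000) ^ (s - 7 * m)) ^ 2 := pow_le_pow_left₀ h0 h2 2
    _ = (∏ l ∈ Finset.range (5 * m), SU D (10 * m - 2 + 2 * l)) ^ 2 *
          (1036 / 1000) ^ ((s - 7 * m) * 2) := by rw [mul_pow, ← pow_mul]
    _ ≤ (81839 / 100000) ^ (10 * m) * (1036 / 1000) ^ (2 * m + 2) := by
      apply mul_le_mul h3 _ (by positivity) (by positivity)
      exact pow_le_pow_right₀ (by norm_num) (by omega)

end Pool.Agent.Helper92.LP
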