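import Pool.Agent.Helper92.LP.BHB
import Pool.Agent.Helper92.LP.BNB
import Pool.Agent.Helper92.LP.BND
import Pool.Agent.Helper92.LP.BPA
import Pool.Agent.Helper92.LP.BPB
import Pool.Agent.Helper92.LP.BSB
import Pool.Agent.Helper92.LP.BN12

namespace Pool.Agent.Helper92.LP

lemma G_zero (D x : ℝ) : G D x 0 = 1 := rfl

lemma NN_zero {ι : Type*} [Fintype ι] (D : ℝ) (w x : ι → ℝ) (k : ℕ) :
    NN D w x 0 k = ∑ i, w i * G D (x i) k := by
  simp [NN, G_zero]

/-- The chain, specialised. -/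
lemma chain_spec {D : ℝ} {m : ℕ} (hm : 425 ≤ m) (h1 : 130 * (m : ℝ) ≤ D) (h2 : D ≤ 130 * m + 130)
    {ι : Type*} [Fintype ι] {w x : ι → ℝ} (hK : ∀ i, G D (x i) (10 * m - 1) = 0)
    (hN : ∀ j k, j < 10 * m - 1 → k < 10 * m - 1 → NN D w x j k = if j = k then nn D j else 0)
    (s : ℕ) (hs : s ≤ 8 * m + 1) :
    |NN D w x 0 (10 * m - 2 + 2 * s)| ≤ nn D (10 * m - 2) / H D (7 / 10) (10 * m - 2)
      * ∏ l ∈ Finset.range s, SU D (10 * m - 2 + 2 * l) := by
  have hmR : (425 : ℝ) ≤ m := by exact_mod_cast hm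
  have hD : 10000 ≤ D := by nlinarith
  have hD0 : 0 < D := by linarith
  have hSpos : ∀ k, 0 < SU D k := by
    intro k
    unfold SU
    positivity
  have e2 : 10 * m - 1 - 1 = 10 * m - 2 := by omega
  have key := chain (D := D) (K := 10 * m - 1) (w := w) (x := x) (by linarith) (by omega) hK hN
    (τ := 7 / 10) (by norm_num) (fun s => SU D (10 * m - 2 + 2 * s))
    (fun s => nn D (10 * m - 2) / H D (7 / 10) (10 * m - 2)
      * ∏ l ∈ Finset.range s, SU D (10 * m - 2 + 2 * l)) (8 * m) (fun s => hSpos _)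
    (by simp [e2]) (fun s => by
      rw [Finset.prod_range_succ]
      ring) (by
      -- cB D K ≤ cA D K * S 0
      have hc : ((10 * m - 1 : ℕ) : ℝ) = 10 * m - 1 := by
        have : 1 ≤ 10 * m := by omega
        push_cast [Nat.cast_sub this]; ring
      have hS : 1 / 2 ≤ SU D (10 * m - 2 + 2 * 0) := by
        unfold SU
        have : 0 ≤ ((10 * m - 2 + 2 * 0 : ℕ) : ℝ) / D := by positivity
        linarith
      have hA := cA_pos hD0 (10 * m - 1)
      have h3 : cB D (10 * m - 1) ≤ cA D (10 * m - 1) * (1 / 2) := by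
        unfold cA cB
        have hd := den_pos hD0 (10 * m - 1)
        rw [div_mul_eq_mul_div, div_le_div_iff_of_pos_right hd, hc]
        linarith
      exact h3.trans (mul_le_mul_of_nonneg_left hS hA.le)) (by
      intro s hs
      have hk : 10 * m - 1 + 1 + 2 * s = (10 * m - 2 + 2 * s) + 2 := by omega
      have hk1 : 10 * m - 1 + 2 * s = (10 * m - 2 + 2 * s) + 1 := by omega
      have hk3 : 10 * m - 1 + 2 + 2 * s = (10 * m - 2 + 2 * s) + 3 := by omega
      have hk4 : 10 * m - 2 + 2 * (s + 1) = (10 * m - 2 + 2 * s) + 2 := by ring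
      have hc : (((10 * m - 2 + 2 * s) + 2 : ℕ) : ℝ) = 10 * m + 2 * s := by
        have : (10 * m - 2 + 2 * s) + 2 = 10 * m + 2 * s := by omega
        rw [this]; push_cast; ring
      have hsR : (s : ℝ) ≤ 8 * m - 1 := by
        have : s + 1 ≤ 8 * m := hs
        have : ((s + 1 : ℕ) : ℝ) ≤ ((8 * m : ℕ) : ℝ) := by exact_mod_cast this
        push_cast at this; linarith
      have hs0 : (0 : ℝ) ≤ s := Nat.cast_nonneg s
      simp only [hk, hk1, hk3, hk4]
      refine U_rec hD (10 * m - 2 + 2 * s) ?_ ?_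
      · rw [hc, le_div_iff₀ hD0]
        nlinarith
      · rw [hc, div_le_iff₀ hD0]
        nlinarith)
  have := key s hs 0 (by omega)
  rw [e2] at this
  simpa [H] using this

/-- The dual measure. -/
theorem dual_measure : ∃ m₀ : ℕ, ∀ m : ℕ, m₀ ≤ m → ∀ D : ℝ, 130 * (m : ℝ) ≤ D →
    D ≤ 130 * m + 130 → ∃ w x : Fin (10 * m - 1) → ℝ, (∀ i, 0 ≤ w i) ∧ (∑ i, w i = 1) ∧
      (∀ i, x i ^ 2 ≤ 1 / 4) ∧ (∀ i, ∃ C, ∀ k, |G D (x i) k| ≤ C) ∧
      ∀ k, 1 ≤ k → (∑ i, w i * G D (x i) k) ^ 2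
        ≤ (2 : ℝ) ^ (-(0.76 * (130 * (m : ℝ) + 132))) := by
  obtain ⟨m1, hm1⟩ := num1
  obtain ⟨m2, hm2⟩ := num2
  refine ⟨max 425 (max m1 m2), fun m hm D h1 h2 => ?_⟩
  have hm425 : 425 ≤ m := le_trans (le_max_left _ _) hm
  have hmm1 : m1 ≤ m := le_trans (le_trans (le_max_left _ _) (le_max_right _ _)) hm
  have hmm2 : m2 ≤ m := le_trans (le_trans (le_max_right _ _) (le_max_right _ _)) hm
  have hmR : (425 : ℝ) ≤ m := by exact_mod_cast hm425
  have hD : 10000 ≤ D := by nlinarith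
  have hD0 : 0 < D := by linarith
  have hE : (0 : ℝ) ≤ (2 : ℝ) ^ (-(0.76 * (130 * (m : ℝ) + 132))) := by positivity
  obtain ⟨w, x, hw, hN', hK, hx⟩ := exists_gauss hD0 (K := 10 * m - 1) (by omega)
  have hN : ∀ j k, j < 10 * m - 1 → k < 10 * m - 1 →
      NN D w x j k = if j = k then nn D j else 0 := hN'
  have h00 : NN D w x 0 0 = 1 := by
    rw [hN 0 0 (by omega) (by omega), if_pos rfl]; rfl
  have hsum : ∑ i, w i = 1 := by
    rw [← h00, NN_zero]
    simp [G_zero]
  have hc : ((10 * m - 1 : ℕ) : ℝ) = 10 * m - 1 := by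
    have : 1 ≤ 10 * m := by omega
    push_cast [Nat.cast_sub this]; ring
  have hKD : 13 * ((10 * m - 1 : ℕ) : ℝ) ≤ D := by rw [hc]; linarith
  have hxs : ∀ i, x i ^ 2 ≤ 4 * (cA D (10 * m - 1 - 2) * cB D (10 * m - 1 - 1)) :=
    fun i => node_sq (by linarith) (by omega) (x i) (hx i)
  have hxq : ∀ i, x i ^ 2 ≤ 1 / 4 :=
    fun i => node_quarter (by linarith) (by omega) hKD (x i) (hxs i)
  have hxd : ∀ i, D / 4 ≤ disc D (x i) (10 * m - 1) :=
    fun i => node_disc (by linarith) (by omega) hKD (x i) (hxs i)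
  have hx1 : ∀ i, x i ^ 2 ≤ 1 := fun i => (hxq i).trans (by norm_num)
  refine ⟨w, x, hw, hsum, hxq, fun i => G_bounded (by linarith) (hx1 i) (by omega)
    (lt_of_lt_of_le (by linarith) (hxd i)) (hK i), fun k hk1 => ?_⟩
  rw [← NN_zero]
  by_cases c1 : k < 10 * m - 1
  · rw [hN 0 k (by omega) c1, if_neg (by omega)]
    simpa using hE
  by_cases c2 : k < 2 * (10 * m - 1)
  · rw [exactness hD0 (by omega) hK hN k 0 (by omega) (by omega) (by omega)]
    simpa using hE
  by_cases c3 : Odd k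
  · rw [parity hD0 (by omega) hK hN k 0 (by omega) (by simpa using c3)]
    simpa using hE
  rw [Nat.not_odd_iff_even] at c3
  by_cases c4 : k ≤ 26 * m
  · obtain ⟨r, hr⟩ := c3
    obtain ⟨s, hs⟩ : ∃ s, k = 10 * m - 2 + 2 * s := ⟨r - (5 * m - 1), by omega⟩
    have hs1 : 5 * m ≤ s := by omega
    have hs2 : s ≤ 8 * m + 1 := by omega
    have hch := chain_spec hm425 h1 h2 hK hN s hs2
    rw [← hs] at hch
    have hnn := nn_bound (D := D) (m := m) (by omega) h1
    have hH := H_bound hm425 h1 h2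
    have hS := S_prod (D := D) (m := m) (by omega) h1 s hs1 hs2
    have hnn0 := nn_pos hD0 (10 * m - 2)
    have hH0 := H_pos hD0 (show (0 : ℝ) < 7 / 10 by norm_num) (10 * m - 2)
    set P := ∏ l ∈ Finset.range s, SU D (10 * m - 2 + 2 * l)
    have hsq : NN D w x 0 k ^ 2 ≤ (nn D (10 * m - 2) / H D (7 / 10) (10 * m - 2) * P) ^ 2 := by
      rw [← sq_abs]
      exact pow_le_pow_left₀ (abs_nonneg _) hch 2
    refine hsq.trans (le_trans ?_ (hm1 m hmm1))
    rw [mul_pow, div_pow]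
    apply mul_le_mul _ hS (sq_nonneg _) (by positivity)
    apply div_le_div₀ (by positivity) _ (by positivity) hH
    exact pow_le_pow_left₀ hnn0.le hnn 2
  · have hk26 : 26 * m ≤ k := by omega
    have henv := env_bound hD0 (K := 10 * m - 1) (by omega) hw hx1 hK
      (δ := D / 4) (by linarith) hxd h00 k (by omega)
    have e2 : 10 * m - 1 - 1 = 10 * m - 2 := by omega
    rw [hN (10 * m - 1 - 1) (10 * m - 1 - 1) (by omega) (by omega), if_pos rfl, e2, hc] at henv
    refine henv.trans (le_trans ?_ (hm2 m hmm2))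
    have hPA := PP_anti (D := D) (by linarith) (show 10 * m - 1 ≤ 26 * m by omega) hk26
    have hPB := PP_bound (D := D) (m := m) (by omega) h1
    have hnn0 := nn_pos hD0 (10 * m - 2)
    have hP0 := PP_nonneg hD0 (10 * m - 1) k
    have hP1 := PP_nonneg hD0 (10 * m - 1) (26 * m)
    have q1 : 0 < 10 * (m : ℝ) - 1 + D := by linarith
    have hc26 : (((26 * m : ℕ) : ℝ) + D) ≤ 156 * m + 130 := by push_cast; linarith
    have hfac : ((10 * (m : ℝ) - 1) ^ 2 / (10 * m - 1 + D)) / (D / 4) ≤ 400 := by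
      rw [div_div, div_le_iff₀ (by positivity)]
      nlinarith
    have hfac0 : 0 ≤ ((10 * (m : ℝ) - 1) ^ 2 / (10 * m - 1 + D)) / (D / 4) := by positivity
    calc ((k : ℝ) + D) * ((10 * (m : ℝ) - 1) ^ 2 / (10 * m - 1 + D)) / (D / 4)
          * PP D (10 * m - 1) k * nn D (10 * m - 2)
        = (((10 * (m : ℝ) - 1) ^ 2 / (10 * m - 1 + D)) / (D / 4))
          * ((((k : ℝ) + D) * PP D (10 * m - 1) k) * nn D (10 * m - 2)) := by ring
      _ ≤ 400 * (((((26 * m : ℕ) : ℝ) + D) * PP D (10 * m - 1) (26 * m)) * nn D (10 * m - 2)) := by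
          apply mul_le_mul hfac _ (by positivity) (by norm_num)
          exact mul_le_mul_of_nonneg_right hPA hnn0.le
      _ = (400 * (((26 * m : ℕ) : ℝ) + D)) * (PP D (10 * m - 1) (26 * m) * nn D (10 * m - 2)) := by
          ring
      _ ≤ ((156 * (m : ℝ) + 130) * 400) * (20 * (156 * m + 1) * ((5 : ℝ) ^ 130 / 6 ^ 156) ^ m) := by
          apply mul_le_mul _ hPB (by positivity) (by positivity)
          linarith

end Pool.Agent.Helper92.LP
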