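import Mathlib

/-!
# Block DU: linear programming duality for Delsarte's bound
-/

set_option autoImplicit false

namespace Pool.Agent.Helper92.LP

/-- DU -/
theorem duality {ι : Type*} [Fintype ι] (g : ℕ → ℝ → ℝ) (w x : ι → ℝ) (hw : ∀ i, 0 ≤ w i)
    (hx : ∀ i, x i ^ 2 ≤ 1 / 4) (hg : ∀ i, ∃ C, ∀ k, |g k (x i)| ≤ C) (h0 : ∀ t, g 0 t = 1)
    (hsum : ∑ i, w i = 1) (η : ℝ) (hη : 0 ≤ η) (hk : ∀ k, 1 ≤ k → |∑ i, w i * g k (x i)| ≤ η)
    (f : ℕ → ℝ) (hf : ∀ k, 0 ≤ f k) (hs : Summable f)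
    (hF : ∀ t : ℝ, -1 ≤ t → t ≤ 1 / 2 → ∑' k, f k * g k t ≤ 0) :
    f 0 ≤ η * ∑' k, f k := by
  classical
  have hsi : ∀ i, Summable fun k => f k * g k (x i) := by
    intro i
    obtain ⟨C, hC⟩ := hg i
    refine Summable.of_norm_bounded (hs.mul_right C) fun k => ?_
    rw [norm_mul, Real.norm_eq_abs, Real.norm_eq_abs, abs_of_nonneg (hf k)]
    exact mul_le_mul_of_nonneg_left (hC k) (hf k)
  have hle : ∀ i, ∑' k, f k * g k (x i) ≤ 0 := by
    intro i
    have h1 : |x i| ≤ 1 / 2 := by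
      apply abs_le_of_sq_le_sq _ (by norm_num)
      calc x i ^ 2 ≤ 1 / 4 := hx i
        _ = (1 / 2) ^ 2 := by norm_num
    have h2 := abs_le.1 h1
    exact hF (x i) (by linarith [h2.1]) h2.2
  have hswap : ∑ i, w i * ∑' k, f k * g k (x i) = ∑' k, f k * ∑ i, w i * g k (x i) := by
    have h1 : ∀ i, w i * ∑' k, f k * g k (x i) = ∑' k, w i * (f k * g k (x i)) := fun i =>
      (tsum_mul_left).symm
    rw [Finset.sum_congr rfl fun i _ => h1 i,
      ← Summable.tsum_finsetSum fun i _ => (hsi i).mul_left (w i)]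
    refine tsum_congr fun k => ?_
    rw [Finset.mul_sum]
    exact Finset.sum_congr rfl fun i _ => by ring
  have hsF : Summable fun k => f k * ∑ i, w i * g k (x i) := by
    have h1 : Summable fun k => ∑ i, w i * (f k * g k (x i)) :=
      summable_sum fun i _ => (hsi i).mul_left (w i)
    refine h1.congr fun k => ?_
    rw [Finset.mul_sum]
    exact Finset.sum_congr rfl fun i _ => by ring
  have hneg : ∑' k, f k * ∑ i, w i * g k (x i) ≤ 0 := by
    rw [← hswap]
    exact Finset.sum_nonpos fun i _ => mul_nonpos_of_nonneg_of_nonpos (hw i) (hle i)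
  have hlow : ∀ k, (if k = 0 then f 0 else 0) - η * f k ≤ f k * ∑ i, w i * g k (x i) := by
    intro k
    by_cases hk0 : k = 0
    · subst hk0
      rw [if_pos rfl]
      have h1 : ∑ i, w i * g 0 (x i) = 1 := by
        rw [← hsum]
        exact Finset.sum_congr rfl fun i _ => by rw [h0, mul_one]
      rw [h1]
      nlinarith [mul_nonneg hη (hf 0)]
    · rw [if_neg hk0]
      have h1 := (abs_le.1 (hk k (Nat.one_le_iff_ne_zero.2 hk0))).1
      nlinarith [mul_le_mul_of_nonneg_left h1 (hf k)]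
  have hs1 : Summable fun k : ℕ => (if k = 0 then f 0 else 0 : ℝ) :=
    (hasSum_ite_eq (0 : ℕ) (f 0)).summable
  have h2 := Summable.tsum_le_tsum hlow (hs1.sub (hs.mul_left η)) hsF
  rw [Summable.tsum_sub hs1 (hs.mul_left η), tsum_mul_left, tsum_ite_eq] at h2
  linarith

end Pool.Agent.Helper92.LP
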