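import Pool.Agent.Helper92.LP.Ratio

/-!
Block HB: lower bound for `H D (7/10) (10 m - 2)`.
-/

namespace Pool.Agent.Helper92.LP

lemma prod_reflect_bound (n : ℕ) (f : ℕ → ℝ) (q : ℝ) (hq : 0 ≤ q)
    (h : ∀ i < n, q ≤ f i * f (n - 1 - i)) :
    q ^ n ≤ (∏ i ∈ Finset.range n, f i) ^ 2 := by
  have h1 : (∏ i ∈ Finset.range n, f i) ^ 2
      = ∏ i ∈ Finset.range n, (f i * f (n - 1 - i)) := by
    rw [Finset.prod_mul_distrib, Finset.prod_range_reflect, sq]
  rw [h1]
  calc q ^ n = ∏ _i ∈ Finset.range n, q := by simp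
    _ ≤ _ := Finset.prod_le_prod (fun _ _ => hq) (fun i hi => h i (Finset.mem_range.1 hi))

lemma H_even_lower {D : ℝ} (hD : 10000 ≤ D) (n : ℕ)
    (hn : ∀ i < n, ((2 * i : ℕ) : ℝ) / D ≤ 1 / 13) :
    ∏ i ∈ Finset.range n, SL D (2 * i) ≤ H D (7 / 10) (2 * n) := by
  induction n with
  | zero =>
    simp only [Finset.range_zero, Finset.prod_empty, Nat.mul_zero]
    exact le_of_eq rfl
  | succ n ih =>
    have hD0 : 0 < D := by linarith
    rw [Finset.prod_range_succ]
    have h1 := ih (fun i hi => hn i (by omega))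
    have h2 := H_lower hD n (hn n (by omega))
    have hS : 0 ≤ SL D (2 * n) := by unfold SL; positivity
    calc (∏ i ∈ Finset.range n, SL D (2 * i)) * SL D (2 * n)
        ≤ H D (7 / 10) (2 * n) * SL D (2 * n) := mul_le_mul_of_nonneg_right h1 hS
      _ = SL D (2 * n) * H D (7 / 10) (2 * n) := mul_comm _ _
      _ ≤ H D (7 / 10) (2 * n + 2) := h2
      _ = H D (7 / 10) (2 * (n + 1)) := by rw [show 2 * (n + 1) = 2 * n + 2 by ring]

/-- HB -/
lemma H_bound {D : ℝ} {m : ℕ} (hm : 425 ≤ m) (h1 : 130 * (m : ℝ) ≤ D) (h2 : D ≤ 130 * m + 130) :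
    (34153 / 100000 : ℝ) ^ (5 * m - 1) ≤ H D (7 / 10) (10 * m - 2) ^ 2 := by
  have hmR : (425 : ℝ) ≤ m := by exact_mod_cast hm
  have hD : 10000 ≤ D := by linarith
  have hD0 : 0 < D := by linarith
  have key := H_even_lower hD (5 * m - 1) (by
    intro i hi
    rw [div_le_div_iff₀ hD0 (by norm_num)]
    have : (2 * i : ℕ) ≤ 10 * m := by omega
    have h3 : ((2 * i : ℕ) : ℝ) ≤ 10 * m := by exact_mod_cast this
    linarith)
  have e1 : 2 * (5 * m - 1) = 10 * m - 2 := by omega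
  rw [e1] at key
  have hpos : 0 ≤ ∏ i ∈ Finset.range (5 * m - 1), SL D (2 * i) :=
    Finset.prod_nonneg (fun i _ => by unfold SL; positivity)
  refine le_trans ?_ (pow_le_pow_left₀ hpos key 2)
  apply prod_reflect_bound _ _ _ (by norm_num)
  intro i hi
  -- the two factors
  set j := 5 * m - 1 - 1 - i with hj
  have hij : i + j = 5 * m - 2 := by omega
  have hijR : (i : ℝ) + j = 5 * m - 2 := by
    have : ((i + j : ℕ) : ℝ) = ((5 * m - 2 : ℕ) : ℝ) := by rw [hij]
    rw [Nat.cast_sub (by omega)] at this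
    push_cast at this
    linarith
  have hi0 : (0:ℝ) ≤ i := Nat.cast_nonneg i
  have hj0 : (0:ℝ) ≤ j := Nat.cast_nonneg j
  unfold SL
  push_cast
  have hx : 0 ≤ 2 * (i:ℝ) / D := by positivity
  have hy : 0 ≤ 2 * (j:ℝ) / D := by positivity
  have hxy : 2 * (i:ℝ) / D + 2 * (j:ℝ) / D = (10 * m - 4) / D := by
    rw [← add_div]
    congr 1
    linarith
  have hlow : (10 * (m:ℝ) - 4) / (130 * m + 130) ≤ (10 * m - 4) / D := by
    apply div_le_div_of_nonneg_left _ hD0 h2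
    linarith
  have hc : (7667 / 100000 : ℝ) ≤ (10 * (m:ℝ) - 4) / (130 * m + 130) := by
    rw [le_div_iff₀ (by linarith)]
    linarith
  have hprod := mul_nonneg hx hy
  nlinarith
end Pool.Agent.Helper92.LP
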