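import Pool.Agent.Helper92.LP.Final
import Pool.Agent.Helper92.LP.BDU

open Pool.Agent.Helper92.LP

namespace Pool.Agent.Helper92.LP.DelsarteKeep

/-- The Gegenbauer (ultraspherical) polynomials of the sphere `S^(d-1)`, with the normalisation
`gegen d k 1 = 1`, given by their three term recurrence. -/
noncomputable def gegen (d : ℕ) : ℕ → ℝ → ℝ
  | 0, _ => 1
  | 1, t => t
  | (k + 2), t => ((2 * k + d) * t * gegen d (k + 1) t - (k + 1) * gegen d k t) / (k + d - 1)

lemma gegen_eq (d : ℕ) (hd : 3 ≤ d) (t : ℝ) : ∀ k, gegen d k t = G ((d : ℝ) - 2) t k := by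
  have hd' : (3 : ℝ) ≤ d := by exact_mod_cast hd
  have main : ∀ k, gegen d k t = G ((d : ℝ) - 2) t k ∧
      gegen d (k + 1) t = G ((d : ℝ) - 2) t (k + 1) := by
    intro k
    induction k with
    | zero => exact ⟨by simp [gegen, G], by simp [gegen, G]⟩
    | succ k ih =>
      refine ⟨ih.2, ?_⟩
      have e1 : gegen d (k + 1 + 1) t
          = ((2 * k + d) * t * gegen d (k + 1) t - (k + 1) * gegen d k t) / (k + d - 1) := rfl
      have e2 : G ((d : ℝ) - 2) t (k + 1 + 1)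
          = (t * G ((d : ℝ) - 2) t (k + 1) - cB ((d : ℝ) - 2) (k + 1) * G ((d : ℝ) - 2) t k)
            / cA ((d : ℝ) - 2) (k + 1) := rfl
      rw [e1, e2, ih.1, ih.2]
      have hk : (0 : ℝ) ≤ k := Nat.cast_nonneg k
      unfold cA cB
      push_cast
      have h1 : (k : ℝ) + d - 1 ≠ 0 := by
        have : 0 < (k : ℝ) + d - 1 := by linarith
        exact this.ne'
      have h2 : 2 * ((k : ℝ) + 1) + (d - 2) ≠ 0 := by
        have : 0 < 2 * ((k : ℝ) + 1) + (d - 2) := by linarith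
        exact this.ne'
      have h3 : (k : ℝ) + 1 + (d - 2) ≠ 0 := by
        have : 0 < (k : ℝ) + 1 + (d - 2) := by linarith
        exact this.ne'
      field_simp
      ring
  exact fun k => (main k).1

/-- **Delsarte's linear programming method cannot bound the kissing numbers below `2^(0.38 d)`.**
In every large dimension `d`, every function `F = ∑ f_k P_k` with nonnegative summable coefficients
in the Gegenbauer polynomials of `S^(d-1)` which is `≤ 0` on `[-1, 1/2]` satisfies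
`F(1) = ∑ f_k ≥ 2^(0.38 d) f_0`; so the bound `F(1)/f_0` for the kissing number that such a
function gives is at least `2^(0.38 d)`. -/
theorem result : ∃ d₀ : ℕ, ∀ d : ℕ, d₀ ≤ d → ∀ f : ℕ → ℝ, (∀ k, 0 ≤ f k) → Summable f →
    (∀ t : ℝ, -1 ≤ t → t ≤ 1 / 2 → ∑' k, f k * gegen d k t ≤ 0) →
    (2 : ℝ) ^ (0.38 * (d : ℝ)) * f 0 ≤ ∑' k, f k := by
  obtain ⟨m₀, hm₀⟩ := dual_measure
  refine ⟨130 * (m₀ + 1) + 2, fun d hd f hf hs hF => ?_⟩
  set m := (d - 2) / 130 with hm
  have hmm : m₀ ≤ m := by omega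
  have hd3 : 3 ≤ d := by omega
  have hc : (((d - 2 : ℕ)) : ℝ) = (d : ℝ) - 2 := by
    push_cast [Nat.cast_sub (show 2 ≤ d by omega)]; ring
  have h1 : 130 * (m : ℝ) ≤ (d : ℝ) - 2 := by
    have : 130 * m ≤ d - 2 := by omega
    rw [← hc]; exact_mod_cast this
  have h2 : (d : ℝ) - 2 ≤ 130 * m + 130 := by
    have : d - 2 ≤ 130 * m + 130 := by omega
    rw [← hc]; exact_mod_cast this
  obtain ⟨w, x, hw, hsum, hx, hG, hk⟩ := hm₀ m hmm ((d : ℝ) - 2) h1 h2
  set η := (2 : ℝ) ^ (-(0.38 * (d : ℝ))) with hη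
  have hη0 : 0 < η := by positivity
  have hE : (2 : ℝ) ^ (-(0.76 * (130 * (m : ℝ) + 132))) ≤ η ^ 2 := by
    rw [hη, ← Real.rpow_natCast, ← Real.rpow_mul (by norm_num)]
    apply Real.rpow_le_rpow_of_exponent_le (by norm_num)
    push_cast
    linarith
  have hbound : ∀ k, 1 ≤ k → |∑ i, w i * gegen d k (x i)| ≤ η := by
    intro k hk1
    have e : ∑ i, w i * gegen d k (x i) = ∑ i, w i * G ((d : ℝ) - 2) (x i) k := by
      apply Finset.sum_congr rfl
      intro i _
      rw [gegen_eq d hd3]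
    rw [e]
    exact abs_le_of_sq_le_sq ((hk k hk1).trans hE) hη0.le |> fun h => h
  have hdual := duality (gegen d) w x hw hx (fun i => by
    obtain ⟨C, hC⟩ := hG i
    exact ⟨C, fun k => by rw [gegen_eq d hd3]; exact hC k⟩) (fun t => rfl) hsum η hη0.le hbound
    f hf hs hF
  have hprod : (2 : ℝ) ^ (0.38 * (d : ℝ)) * η = 1 := by
    rw [hη, ← Real.rpow_add (by norm_num)]
    simp
  calc (2 : ℝ) ^ (0.38 * (d : ℝ)) * f 0 ≤ (2 : ℝ) ^ (0.38 * (d : ℝ)) * (η * ∑' k, f k) :=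
        mul_le_mul_of_nonneg_left hdual (by positivity)
    _ = ((2 : ℝ) ^ (0.38 * (d : ℝ)) * η) * ∑' k, f k := by ring
    _ = ∑' k, f k := by rw [hprod, one_mul]

end Pool.Agent.Helper92.LP.DelsarteKeep
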