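import Pool.Agent.Helper92.LP.Wave

/-!
A monotone energy for the three term recurrence beyond the turning point.
-/

namespace Pool.Agent.Helper92.LP

/-- discriminant of the energy form -/
noncomputable def disc (D x : ℝ) (k : ℕ) : ℝ := k * (k + D) - (2 * k + D) ^ 2 * x ^ 2 / 4

/-- energy -/
noncomputable def En (D x : ℝ) (k : ℕ) : ℝ :=
  (k + D) * G D x (k + 1) ^ 2 - (2 * k + D) * x * G D x k * G D x (k + 1) + k * G D x k ^ 2

/-- product of the ratios -/
noncomputable def PP (D : ℝ) (K k : ℕ) : ℝ := ∏ j ∈ Finset.Ico (K + 1) (k + 1), ((j : ℝ) / (j + D))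

variable {D x : ℝ}

lemma disc_succ (k : ℕ) : disc D x (k + 1) = disc D x k + (2 * k + 1 + D) * (1 - x ^ 2) := by
  unfold disc
  push_cast
  ring

lemma rec_int (hD : 0 < D) (k : ℕ) :
    ((k : ℝ) + 1 + D) * G D x (k + 2) = (2 * k + 2 + D) * x * G D x (k + 1) - (k + 1) * G D x k := by
  have h := G_rec hD x k
  have hd := den_pos hD (k + 1)
  unfold cA cB at h
  push_cast at h hd
  have hne : (2 * ((k : ℝ) + 1) + D) ≠ 0 := hd.ne'
  field_simp at h
  linarith

lemma En_succ (hD : 0 < D) (k : ℕ) :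
    ((k : ℝ) + 1 + D) * En D x (k + 1)
      = (k + 1) * (En D x k + (G D x (k + 1) ^ 2 - 2 * x * G D x k * G D x (k + 1) + G D x k ^ 2)) := by
  have h := rec_int (x := x) hD k
  unfold En
  push_cast
  have e : G D x (k + 1 + 1) = G D x (k + 2) := rfl
  rw [e]
  set p := G D x (k + 1)
  set q := G D x k
  set r := G D x (k + 2)
  have h1 : ((k : ℝ) + 1 + D) * (((k : ℝ) + 1 + D) * r ^ 2 - (2 * (k + 1) + D) * x * p * r + (k + 1) * p ^ 2)
      = (((k : ℝ) + 1 + D) * r) ^ 2 - (2 * (k + 1) + D) * x * p * (((k : ℝ) + 1 + D) * r)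
        + (k + 1) * ((k : ℝ) + 1 + D) * p ^ 2 := by ring
  rw [h1, h]
  ring

lemma En_lower (k : ℕ) :
    ((k : ℝ) + D) * En D x k
      = ((k + D) * G D x (k + 1) - (2 * k + D) * x * G D x k / 2) ^ 2 + disc D x k * G D x k ^ 2 := by
  unfold En disc
  ring

lemma En_nonneg (hD : 0 < D) (k : ℕ) (h : 0 ≤ disc D x k) : 0 ≤ En D x k := by
  have h1 := En_lower (D := D) (x := x) k
  have h2 : 0 ≤ ((k : ℝ) + D) * En D x k := by
    rw [h1]
    have := mul_nonneg h (sq_nonneg (G D x k))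
    positivity
  have h3 : 0 < (k : ℝ) + D := by positivity
  exact nonneg_of_mul_nonneg_right h2 h3

lemma En_step (hD : 0 < D) (hx : x ^ 2 ≤ 1) (k : ℕ) (h : 0 ≤ disc D x k) :
    ((k : ℝ) + 1 + D) * (disc D x k * En D x (k + 1)) ≤ (k + 1) * (disc D x (k + 1) * En D x k) := by
  have h1 := En_succ (x := x) hD k
  have hE := En_nonneg (x := x) hD k h
  set p := G D x (k + 1) with hp
  set q := G D x k with hq
  have key : (2 * (k : ℝ) + D) * (1 - x ^ 2) * En D x k
      - disc D x k * (p ^ 2 - 2 * x * q * p + q ^ 2)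
      = ((k + D) * p - (2 * k + D) * x * q / 2) ^ 2
        + 2 * x * ((k + D) * p - (2 * k + D) * x * q / 2) * (k * q - (2 * k + D) * x * p / 2)
        + (k * q - (2 * k + D) * x * p / 2) ^ 2 := by
    unfold En disc
    rw [← hp, ← hq]
    ring
  have hpos : 0 ≤ ((k + D) * p - (2 * k + D) * x * q / 2) ^ 2
        + 2 * x * ((k + D) * p - (2 * k + D) * x * q / 2) * (k * q - (2 * k + D) * x * p / 2)
        + (k * q - (2 * k + D) * x * p / 2) ^ 2 := by
    set y := (k + D) * p - (2 * k + D) * x * q / 2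
    set z := k * q - (2 * k + D) * x * p / 2
    have : y ^ 2 + 2 * x * y * z + z ^ 2 = (y + x * z) ^ 2 + (1 - x ^ 2) * z ^ 2 := by ring
    rw [this]
    have := mul_nonneg (sub_nonneg.2 hx) (sq_nonneg z)
    positivity
  have h2 : disc D x k * (En D x k + (p ^ 2 - 2 * x * q * p + q ^ 2))
      ≤ disc D x (k + 1) * En D x k := by
    rw [disc_succ]
    have := mul_nonneg (sub_nonneg.2 hx) hE
    nlinarith [key, hpos]
  calc ((k : ℝ) + 1 + D) * (disc D x k * En D x (k + 1))
      = disc D x k * (((k : ℝ) + 1 + D) * En D x (k + 1)) := by ring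
    _ = (k + 1) * (disc D x k * (En D x k + (p ^ 2 - 2 * x * q * p + q ^ 2))) := by rw [h1]; ring
    _ ≤ _ := mul_le_mul_of_nonneg_left h2 (by positivity)

lemma PP_nonneg (hD : 0 < D) (K k : ℕ) : 0 ≤ PP D K k := by
  unfold PP
  apply Finset.prod_nonneg
  intro j _
  positivity

lemma PP_succ {K k : ℕ} (h : K ≤ k) : PP D K (k + 1) = PP D K k * (((k : ℝ) + 1) / (k + 1 + D)) := by
  unfold PP
  rw [Finset.prod_Ico_succ_top (by omega)]
  push_cast
  rfl

lemma En_bound (hD : 0 < D) (hx : x ^ 2 ≤ 1) {K : ℕ} (h : 0 < disc D x K) :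
    ∀ k, K ≤ k → disc D x K ≤ disc D x k ∧
      disc D x K * En D x k ≤ disc D x k * PP D K k * En D x K := by
  intro k hk
  induction k, hk using Nat.le_induction with
  | base =>
    refine ⟨le_rfl, ?_⟩
    have : PP D K K = 1 := by unfold PP; simp
    rw [this, mul_one]
  | succ k hk ih =>
    obtain ⟨ih1, ih2⟩ := ih
    have hd : 0 < disc D x k := lt_of_lt_of_le h ih1
    refine ⟨?_, ?_⟩
    · rw [disc_succ]
      have h3 : 0 ≤ (2 * (k : ℝ) + 1 + D) * (1 - x ^ 2) :=
        mul_nonneg (by positivity) (sub_nonneg.2 hx)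
      linarith
    · have hs := En_step hD hx k hd.le
      rw [PP_succ hk]
      have hq : 0 < (k : ℝ) + 1 + D := by positivity
      have hd1 : 0 ≤ disc D x (k + 1) := by
        rw [disc_succ]
        have h3 : 0 ≤ (2 * (k : ℝ) + 1 + D) * (1 - x ^ 2) :=
          mul_nonneg (by positivity) (sub_nonneg.2 hx)
        linarith
      -- multiply by `(k+1+D) * disc k`
      have goal2 : (((k : ℝ) + 1 + D) * disc D x k) * (disc D x K * En D x (k + 1))
          ≤ (((k : ℝ) + 1 + D) * disc D x k) *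
            (disc D x (k + 1) * (PP D K k * (((k : ℝ) + 1) / (k + 1 + D))) * En D x K) := by
        have e1 : (((k : ℝ) + 1 + D) * disc D x k) * (disc D x K * En D x (k + 1))
            = disc D x K * (((k : ℝ) + 1 + D) * (disc D x k * En D x (k + 1))) := by ring
        have e2 : (((k : ℝ) + 1 + D) * disc D x k) *
            (disc D x (k + 1) * (PP D K k * (((k : ℝ) + 1) / (k + 1 + D))) * En D x K)
            = ((k + 1) * disc D x (k + 1)) * (disc D x k * PP D K k * En D x K) := by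
          field_simp
        rw [e1, e2]
        calc disc D x K * (((k : ℝ) + 1 + D) * (disc D x k * En D x (k + 1)))
            ≤ disc D x K * ((k + 1) * (disc D x (k + 1) * En D x k)) :=
              mul_le_mul_of_nonneg_left hs h.le
          _ = ((k + 1) * disc D x (k + 1)) * (disc D x K * En D x k) := by ring
          _ ≤ _ := mul_le_mul_of_nonneg_left ih2 (mul_nonneg (by positivity) hd1)
      exact le_of_mul_le_mul_left goal2 (mul_pos hq hd)

lemma G_sq_bound (hD : 0 < D) (hx : x ^ 2 ≤ 1) {K : ℕ} (hK1 : 1 ≤ K) (h : 0 < disc D x K)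
    (hK : G D x K = 0) (k : ℕ) (hk : K ≤ k) :
    disc D x K * G D x k ^ 2
      ≤ (k + D) * PP D K k * (K ^ 2 / (K + D)) * G D x (K - 1) ^ 2 := by
  obtain ⟨h1, h2⟩ := En_bound hD hx h k hk
  have hd : 0 < disc D x k := lt_of_lt_of_le h h1
  have h3 := En_lower (D := D) (x := x) k
  have h4 : disc D x k * G D x k ^ 2 ≤ ((k : ℝ) + D) * En D x k := by
    rw [h3]
    have := sq_nonneg ((k + D) * G D x (k + 1) - (2 * k + D) * x * G D x k / 2)
    linarith
  have hEK : En D x K = (K ^ 2 / (K + D)) * G D x (K - 1) ^ 2 := by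
    obtain ⟨K', rfl⟩ : ∃ K', K = K' + 1 := ⟨K - 1, by omega⟩
    have hr := rec_int (x := x) hD K'
    rw [hK] at hr
    unfold En
    rw [hK]
    simp only [Nat.add_sub_cancel]
    push_cast
    have e : G D x (K' + 1 + 1) = G D x (K' + 2) := rfl
    rw [e]
    have hq : 0 < (K' : ℝ) + 1 + D := by positivity
    have h5 : G D x (K' + 2) = - ((K' + 1) * G D x K') / (K' + 1 + D) := by
      field_simp
      linarith
    rw [h5]
    field_simp
    ring
  rw [hEK] at h2
  have hkD : 0 < (k : ℝ) + D := by positivity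
  have goal2 : disc D x k * (disc D x K * G D x k ^ 2)
      ≤ disc D x k * ((k + D) * PP D K k * (K ^ 2 / (K + D)) * G D x (K - 1) ^ 2) := by
    calc disc D x k * (disc D x K * G D x k ^ 2)
        = disc D x K * (disc D x k * G D x k ^ 2) := by ring
      _ ≤ disc D x K * (((k : ℝ) + D) * En D x k) := mul_le_mul_of_nonneg_left h4 h.le
      _ = ((k : ℝ) + D) * (disc D x K * En D x k) := by ring
      _ ≤ ((k : ℝ) + D) * (disc D x k * PP D K k * ((K ^ 2 / (K + D)) * G D x (K - 1) ^ 2)) :=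
          mul_le_mul_of_nonneg_left h2 hkD.le
      _ = _ := by ring
  exact le_of_mul_le_mul_left goal2 hd

variable {ι : Type*} [Fintype ι] {w y : ι → ℝ}

/-- the energy bound for the moments -/
theorem env_bound (hD : 0 < D) {K : ℕ} (hK1 : 1 ≤ K) (hw : ∀ i, 0 ≤ w i)
    (hy : ∀ i, y i ^ 2 ≤ 1) (hK : ∀ i, G D (y i) K = 0) {δ : ℝ} (hδ : 0 < δ)
    (hδi : ∀ i, δ ≤ disc D (y i) K) (h00 : NN D w y 0 0 = 1)
    (k : ℕ) (hk : K ≤ k) :
    NN D w y 0 k ^ 2
      ≤ ((k + D) * (K ^ 2 / (K + D)) / δ) * PP D K k * NN D w y (K - 1) (K - 1) := by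
  have hsum : ∑ i, w i = 1 := by
    have : NN D w y 0 0 = ∑ i, w i := by simp [NN, G]
    rw [← this]; exact h00
  have h0 : NN D w y 0 k = ∑ i, w i * G D (y i) k := by simp [NN, G]
  have hcs : NN D w y 0 k ^ 2 ≤ ∑ i, w i * G D (y i) k ^ 2 := by
    rw [h0]
    have hcs := Finset.sum_mul_sq_le_sq_mul_sq Finset.univ (fun i => Real.sqrt (w i))
      (fun i => Real.sqrt (w i) * G D (y i) k)
    have e1 : ∀ i, Real.sqrt (w i) * (Real.sqrt (w i) * G D (y i) k) = w i * G D (y i) k := by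
      intro i
      rw [← mul_assoc, Real.mul_self_sqrt (hw i)]
    have e2 : ∀ i, Real.sqrt (w i) ^ 2 = w i := fun i => Real.sq_sqrt (hw i)
    have e3 : ∀ i, (Real.sqrt (w i) * G D (y i) k) ^ 2 = w i * G D (y i) k ^ 2 := by
      intro i
      rw [mul_pow, e2]
    simp only [e1, e2, e3, hsum, one_mul] at hcs
    exact hcs
  have hP := PP_nonneg hD K k
  have hpt : ∀ i, w i * G D (y i) k ^ 2
      ≤ ((k + D) * (K ^ 2 / (K + D)) / δ) * PP D K k * (w i * (G D (y i) (K - 1) * G D (y i) (K - 1))) := by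
    intro i
    have hdi : 0 < disc D (y i) K := lt_of_lt_of_le hδ (hδi i)
    have h1 := G_sq_bound hD (hy i) hK1 hdi (hK i) k hk
    have h2 : δ * G D (y i) k ^ 2
        ≤ (k + D) * PP D K k * (K ^ 2 / (K + D)) * G D (y i) (K - 1) ^ 2 :=
      (mul_le_mul_of_nonneg_right (hδi i) (sq_nonneg _)).trans h1
    have h3 : G D (y i) k ^ 2
        ≤ ((k + D) * (K ^ 2 / (K + D)) / δ) * PP D K k * (G D (y i) (K - 1) * G D (y i) (K - 1)) := by
      have : ((k + D) * (K ^ 2 / (K + D)) / δ) * PP D K k * (G D (y i) (K - 1) * G D (y i) (K - 1))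
          = ((k + D) * PP D K k * (K ^ 2 / (K + D)) * G D (y i) (K - 1) ^ 2) / δ := by ring
      rw [this, le_div_iff₀ hδ]
      linarith
    calc w i * G D (y i) k ^ 2 ≤ w i * (((k + D) * (K ^ 2 / (K + D)) / δ) * PP D K k
          * (G D (y i) (K - 1) * G D (y i) (K - 1))) := mul_le_mul_of_nonneg_left h3 (hw i)
      _ = _ := by ring
  refine hcs.trans ((Finset.sum_le_sum (fun i _ => hpt i)).trans (le_of_eq ?_))
  unfold NN
  rw [Finset.mul_sum]

end Pool.Agent.Helper92.LP
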