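import Mathlib

/-!
Gegenbauer polynomials through their three term recurrence, `D = d - 2`.
-/

namespace Pool.Agent.Helper92.LP

/-- upper coefficient of the recurrence -/
noncomputable def cA (D : ℝ) (j : ℕ) : ℝ := (j + D) / (2 * j + D)

/-- lower coefficient of the recurrence -/
noncomputable def cB (D : ℝ) (j : ℕ) : ℝ := j / (2 * j + D)

/-- the polynomials `G_k`, normalised by `G_k(1) = 1` -/
noncomputable def G (D x : ℝ) : ℕ → ℝ
  | 0 => 1
  | 1 => x
  | (k + 2) => (x * G D x (k + 1) - cB D (k + 1) * G D x k) / cA D (k + 1)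

/-- `|G_k(i x)|` -/
noncomputable def H (D x : ℝ) : ℕ → ℝ
  | 0 => 1
  | 1 => x
  | (k + 2) => (x * H D x (k + 1) + cB D (k + 1) * H D x k) / cA D (k + 1)

/-- the squared norm of `G_k` -/
noncomputable def nn (D : ℝ) : ℕ → ℝ
  | 0 => 1
  | (k + 1) => nn D k * cB D (k + 1) / cA D k

variable {D : ℝ}

lemma cA_zero (hD : 0 < D) : cA D 0 = 1 := by
  simp [cA, hD.ne']

lemma cB_zero : cB D 0 = 0 := by unfold cB; simp

lemma den_pos (hD : 0 < D) (j : ℕ) : 0 < 2 * (j : ℝ) + D := by positivity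

lemma cA_pos (hD : 0 < D) (j : ℕ) : 0 < cA D j := by unfold cA; positivity

lemma cB_nonneg (hD : 0 < D) (j : ℕ) : 0 ≤ cB D j := by unfold cB; positivity

lemma cB_pos (hD : 0 < D) (j : ℕ) : 0 < cB D (j + 1) := by unfold cB; positivity

lemma cA_add_cB (hD : 0 < D) (j : ℕ) : cA D j + cB D j = 1 := by
  unfold cA cB
  have := den_pos hD j
  field_simp
  ring

lemma cA_le_one (hD : 0 < D) (j : ℕ) : cA D j ≤ 1 := by
  have := cA_add_cB hD j
  have := cB_nonneg hD j
  linarith

lemma cA_anti (hD : 0 < D) (j : ℕ) : cA D (j + 1) ≤ cA D j := by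
  unfold cA
  have h1 := den_pos hD j
  have h2 := den_pos hD (j + 1)
  rw [div_le_div_iff₀ h2 h1]
  push_cast
  nlinarith

lemma cB_mono (hD : 0 < D) (j : ℕ) : cB D j ≤ cB D (j + 1) := by
  have h1 := cA_add_cB hD j
  have h2 := cA_add_cB hD (j + 1)
  have h3 := cA_anti hD j
  linarith

lemma cB_le_half (hD : 0 < D) (j : ℕ) : cB D j ≤ 1 / 2 := by
  unfold cB
  rw [div_le_div_iff₀ (den_pos hD j) (by norm_num)]
  nlinarith

lemma nn_pos (hD : 0 < D) (k : ℕ) : 0 < nn D k := by
  induction k with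
  | zero => simp [nn]
  | succ k ih =>
    simp only [nn]
    have := cB_pos hD k
    have := cA_pos hD k
    positivity

lemma G_rec (hD : 0 < D) (x : ℝ) (k : ℕ) :
    cA D (k + 1) * G D x (k + 2) = x * G D x (k + 1) - cB D (k + 1) * G D x k := by
  have h : G D x (k + 2) = (x * G D x (k + 1) - cB D (k + 1) * G D x k) / cA D (k + 1) := rfl
  rw [h]
  have := cA_pos hD (k + 1)
  field_simp

/-- uniform form of the recurrence -/
lemma G_mul (hD : 0 < D) (x : ℝ) (k : ℕ) :
    x * G D x k = cA D k * G D x (k + 1) + cB D k * G D x (k - 1) := by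
  cases k with
  | zero => simp [G, cA_zero hD, cB_zero]
  | succ k =>
    have := G_rec hD x k
    simp only [Nat.add_sub_cancel]
    linarith

lemma H_rec (hD : 0 < D) (x : ℝ) (k : ℕ) :
    cA D (k + 1) * H D x (k + 2) = x * H D x (k + 1) + cB D (k + 1) * H D x k := by
  have h : H D x (k + 2) = (x * H D x (k + 1) + cB D (k + 1) * H D x k) / cA D (k + 1) := rfl
  rw [h]
  have := cA_pos hD (k + 1)
  field_simp

lemma H_mul (hD : 0 < D) (x : ℝ) (k : ℕ) :
    x * H D x k = cA D k * H D x (k + 1) - cB D k * H D x (k - 1) := by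
  cases k with
  | zero => simp [H, cA_zero hD, cB_zero]
  | succ k =>
    have := H_rec hD x k
    simp only [Nat.add_sub_cancel]
    linarith

lemma H_pos (hD : 0 < D) {x : ℝ} (hx : 0 < x) (k : ℕ) : 0 < H D x k := by
  have : ∀ k, 0 < H D x k ∧ 0 < H D x (k + 1) := by
    intro k
    induction k with
    | zero => exact ⟨by simp [H], by simpa [H] using hx⟩
    | succ k ih =>
      refine ⟨ih.2, ?_⟩
      have h1 := H_rec hD x k
      have h2 := cA_pos hD (k + 1)
      have h3 := cB_pos hD k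
      have h4 : 0 < x * H D x (k + 1) + cB D (k + 1) * H D x k := by
        have := mul_pos hx ih.2
        have := mul_pos h3 ih.1
        linarith
      rw [← h1] at h4
      exact (pos_iff_pos_of_mul_pos h4).1 h2
  exact (this k).1

/-- the diagonal coefficient of multiplication by `x²` -/
noncomputable def cc (D : ℝ) (j : ℕ) : ℝ := cA D j * cB D (j + 1) + cB D j * cA D (j - 1)

lemma G_mul2 (hD : 0 < D) (x : ℝ) (j : ℕ) :
    x ^ 2 * G D x j = cA D j * cA D (j + 1) * G D x (j + 2) + cc D j * G D x j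
      + cB D j * cB D (j - 1) * G D x (j - 2) := by
  have e : x ^ 2 * G D x j = x * (x * G D x j) := by ring
  rw [e, G_mul hD x j, mul_add]
  have e1 : x * (cA D j * G D x (j + 1)) = cA D j * (x * G D x (j + 1)) := by ring
  have e2 : x * (cB D j * G D x (j - 1)) = cB D j * (x * G D x (j - 1)) := by ring
  rw [e1, e2, G_mul hD x (j + 1), G_mul hD x (j - 1)]
  unfold cc
  rcases j with _ | j
  · simp [cB_zero]; ring
  · simp only [Nat.add_sub_cancel]
    have : j + 1 - 2 = j - 1 := by omega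
    rw [this]
    ring

lemma H_mul2 (hD : 0 < D) (x : ℝ) (j : ℕ) :
    x ^ 2 * H D x j = cA D j * cA D (j + 1) * H D x (j + 2) - cc D j * H D x j
      + cB D j * cB D (j - 1) * H D x (j - 2) := by
  have e : x ^ 2 * H D x j = x * (x * H D x j) := by ring
  rw [e, H_mul hD x j, mul_sub]
  have e1 : x * (cA D j * H D x (j + 1)) = cA D j * (x * H D x (j + 1)) := by ring
  have e2 : x * (cB D j * H D x (j - 1)) = cB D j * (x * H D x (j - 1)) := by ring
  rw [e1, e2, H_mul hD x (j + 1), H_mul hD x (j - 1)]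
  unfold cc
  rcases j with _ | j
  · simp [cB_zero]; ring
  · simp only [Nat.add_sub_cancel]
    have : j + 1 - 2 = j - 1 := by omega
    rw [this]
    ring

/-- `a_{j+1}^2 = cA j * cB (j+1)` is increasing. -/
lemma ab_mono (hD : 2 ≤ D) (j : ℕ) :
    cA D j * cB D (j + 1) ≤ cA D (j + 1) * cB D (j + 2) := by
  have hD0 : 0 < D := by linarith
  have h1 := den_pos hD0 j
  have h2 := den_pos hD0 (j + 1)
  have h3 := den_pos hD0 (j + 2)
  unfold cA cB
  rw [div_mul_div_comm, div_mul_div_comm, div_le_div_iff₀ (mul_pos h1 h2) (mul_pos h2 h3)]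
  push_cast
  push_cast at h2 h3
  have hj : (0:ℝ) ≤ j := Nat.cast_nonneg j
  have key : ((j:ℝ) + D) * (j + 1) * (2 * (j + 2) + D) ≤ ((j:ℝ) + 1 + D) * (j + 2) * (2 * j + D) := by
    nlinarith [mul_nonneg hj hj, mul_nonneg hj hD0.le]
  nlinarith [mul_le_mul_of_nonneg_left key h2.le]

end Pool.Agent.Helper92.LP
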