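import Pool.Agent.Helper92.LP.Energy

/-!
Explicit ratio functions for the two chains, at `τ = 7/10`.
-/

namespace Pool.Agent.Helper92.LP

/-- ratio used for the upper chain -/
noncomputable def SU (D : ℝ) (k : ℕ) : ℝ := 523 / 1000 + 256 / 100 * (k / D)

/-- ratio used for the lower chain -/
noncomputable def SL (D : ℝ) (k : ℕ) : ℝ := 49 / 100 + 27 / 10 * (k / D)

lemma poly_U (t h : ℝ) (ht0 : 74 / 1000 ≤ t) (ht1 : t ≤ 1 / 5) (h1 : h ≤ 1 / 10000) :
    (49 / 100 * (1 + 2 * t) ^ 2 + 2 * t * (1 + t) + h * (1 + 2 * t) ^ 2)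
        * (523 / 1000 + 256 / 100 * t - 512 / 100 * h) + t ^ 2
      ≤ ((1 + t) ^ 2 - h * (1 + t) * (1 + 2 * t)) * ((523 / 1000 + 256 / 100 * t)
        * (523 / 1000 + 256 / 100 * t - 512 / 100 * h)) := by
  set S := 523 / 1000 + 256 / 100 * t with hS
  have hS0 : 0 ≤ S := by rw [hS]; linarith
  set S' := S - 512 / 100 * h with hS'
  have hS'lo : 522488 / 1000000 + 256 / 100 * t ≤ S' := by rw [hS', hS]; linarith
  -- bracket bound
  have hb : 3263 / 100000 - 354 / 1000 * t + 1683 / 1000 * t ^ 2 + 256 / 100 * t ^ 3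
      ≤ ((1 + t) ^ 2 - h * (1 + t) * (1 + 2 * t)) * S
        - (49 / 100 * (1 + 2 * t) ^ 2 + 2 * t * (1 + t) + h * (1 + 2 * t) ^ 2) := by
    have e : ((1 + t) ^ 2 - h * (1 + t) * (1 + 2 * t)) * S
        - (49 / 100 * (1 + 2 * t) ^ 2 + 2 * t * (1 + t) + h * (1 + 2 * t) ^ 2)
        = (33 / 1000 - 354 / 1000 * t + 1683 / 1000 * t ^ 2 + 256 / 100 * t ^ 3)
          - h * ((1 + t) * (1 + 2 * t) * S + (1 + 2 * t) ^ 2) := by
      rw [hS]; ring
    rw [e]
    have hq : (1 + t) * (1 + 2 * t) * S + (1 + 2 * t) ^ 2 ≤ 37 / 10 := by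
      have a1 : 0 ≤ (1 + t) * (1 + 2 * t) := by positivity
      have a2 : (1 + t) * (1 + 2 * t) ≤ 168 / 100 := by nlinarith
      have a3 : S ≤ 1035 / 1000 := by rw [hS]; linarith
      have a4 : (1 + t) * (1 + 2 * t) * S ≤ 168 / 100 * (1035 / 1000) :=
        mul_le_mul a2 a3 hS0 (by norm_num)
      have a5 : (1 + 2 * t) ^ 2 ≤ 196 / 100 := by nlinarith
      linarith
    have hq0 : 0 ≤ (1 + t) * (1 + 2 * t) * S + (1 + 2 * t) ^ 2 := by positivity
    have : h * ((1 + t) * (1 + 2 * t) * S + (1 + 2 * t) ^ 2) ≤ 1 / 10000 * (37 / 10) :=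
      mul_le_mul h1 hq hq0 (by norm_num)
    linarith
  have hb0 : 0 ≤ 3263 / 100000 - 354 / 1000 * t + 1683 / 1000 * t ^ 2 + 256 / 100 * t ^ 3 := by
    nlinarith [sq_nonneg (t - 1 / 10), sq_nonneg t, mul_nonneg (sq_nonneg t) (by linarith : (0:ℝ) ≤ t)]
  have hmain : t ^ 2 ≤ (3263 / 100000 - 354 / 1000 * t + 1683 / 1000 * t ^ 2 + 256 / 100 * t ^ 3)
      * (522488 / 1000000 + 256 / 100 * t) := by
    have ht : 0 ≤ t := by linarith
    nlinarith [mul_nonneg (sq_nonneg (t - 1365 / 10000))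
      (by positivity : (0:ℝ) ≤ 65536 / 10000 * t ^ 2 + 7435 / 1000 * t + 88 / 100), ht,
      sq_nonneg (t - 1365 / 10000), sq_nonneg t, mul_nonneg ht (sq_nonneg t)]
  have h3 : t ^ 2 ≤ (((1 + t) ^ 2 - h * (1 + t) * (1 + 2 * t)) * S
        - (49 / 100 * (1 + 2 * t) ^ 2 + 2 * t * (1 + t) + h * (1 + 2 * t) ^ 2)) * S' :=
    hmain.trans (mul_le_mul hb hS'lo (by linarith) (hb0.trans hb))
  linarith [h3, (by ring : ((1 + t) ^ 2 - h * (1 + t) * (1 + 2 * t)) * (S * S')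
    = (((1 + t) ^ 2 - h * (1 + t) * (1 + 2 * t)) * S
        - (49 / 100 * (1 + 2 * t) ^ 2 + 2 * t * (1 + t) + h * (1 + 2 * t) ^ 2)) * S'
      + (49 / 100 * (1 + 2 * t) ^ 2 + 2 * t * (1 + t) + h * (1 + 2 * t) ^ 2) * S')]

lemma poly_L (t h : ℝ) (ht0 : 0 ≤ t) (ht1 : t ≤ 1 / 13) (h1 : h ≤ 1 / 10000) :
    (1 + t) ^ 2 * ((49 / 100 + 27 / 10 * t) * (49 / 100 + 27 / 10 * t - 54 / 10 * h)) + t ^ 2
      ≤ (49 / 100 * (1 + 2 * t) ^ 2 + 2 * t * (1 + t)) * (49 / 100 + 27 / 10 * t - 54 / 10 * h) := by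
  set S := 49 / 100 + 27 / 10 * t with hS
  set S' := S - 54 / 10 * h with hS'
  have hS'lo : 48946 / 100000 + 27 / 10 * t ≤ S' := by rw [hS', hS]; linarith
  have e : (49 / 100 * (1 + 2 * t) ^ 2 + 2 * t * (1 + t)) - (1 + t) ^ 2 * S
      = t * (28 / 100 - 193 / 100 * t - 27 / 10 * t ^ 2) := by
    rw [hS]; ring
  have hb0 : 0 ≤ 28 / 100 - 193 / 100 * t - 27 / 10 * t ^ 2 := by nlinarith
  have hmain : t ≤ (28 / 100 - 193 / 100 * t - 27 / 10 * t ^ 2) * (48946 / 100000 + 27 / 10 * t) := by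
    nlinarith [mul_nonneg ht0 ht0, mul_nonneg ht0 (mul_nonneg ht0 ht0),
      mul_nonneg ht0 (sub_nonneg.2 ht1), mul_nonneg (mul_nonneg ht0 ht0) (sub_nonneg.2 ht1)]
  have h3 : t ^ 2 ≤ t * (28 / 100 - 193 / 100 * t - 27 / 10 * t ^ 2) * S' := by
    have := mul_le_mul_of_nonneg_left (hmain.trans (mul_le_mul_of_nonneg_left hS'lo hb0)) ht0
    nlinarith [this]
  rw [← e] at h3
  nlinarith [h3]

lemma cB_step {D : ℝ} (hD : 0 < D) (k : ℕ) : cB D (k + 1) ≤ cB D k + 1 / D := by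
  unfold cB
  have h1 := den_pos hD k
  have h2 := den_pos hD (k + 1)
  rw [← sub_nonneg]
  have e : (k : ℝ) / (2 * k + D) + 1 / D - ((k + 1 : ℕ) : ℝ) / (2 * ((k + 1 : ℕ) : ℝ) + D)
      = ((2 * (k : ℝ) + D) * (2 * (k + 1) + D) - D ^ 2) / (D * (2 * k + D) * (2 * (k + 1) + D)) := by
    push_cast
    push_cast at h2
    field_simp
    ring
  rw [e]
  push_cast at h2
  apply div_nonneg _ (by positivity)
  have hk : (0:ℝ) ≤ k := Nat.cast_nonneg k
  nlinarith [mul_nonneg hk hD.le]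

lemma cA_step {D : ℝ} (hD : 0 < D) (k : ℕ) : cA D k ≤ cA D (k + 1) + 1 / D := by
  have h1 := cA_add_cB hD k
  have h2 := cA_add_cB hD (k + 1)
  have h3 := cB_step hD k
  linarith

lemma cA_eq {D : ℝ} (hD : 0 < D) (k : ℕ) : cA D k = (1 + k / D) / (1 + 2 * (k / D)) := by
  unfold cA
  have h1 := den_pos hD k
  have h2 : 0 < 1 + 2 * ((k : ℝ) / D) := by positivity
  rw [div_eq_div_iff h1.ne' h2.ne']
  field_simp
  ring

lemma cB_eq {D : ℝ} (hD : 0 < D) (k : ℕ) : cB D k = (k / D) / (1 + 2 * (k / D)) := by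
  unfold cB
  have h1 := den_pos hD k
  have h2 : 0 < 1 + 2 * ((k : ℝ) / D) := by positivity
  rw [div_eq_div_iff h1.ne' h2.ne']
  field_simp
  ring

lemma U_rec {D : ℝ} (hD : 10000 ≤ D) (k : ℕ)
    (h1 : 74 / 1000 ≤ ((k + 2 : ℕ) : ℝ) / D) (h2 : ((k + 2 : ℕ) : ℝ) / D ≤ 1 / 5) :
    ((7 / 10) ^ 2 + cc D (k + 2)) * SU D k + cB D (k + 2) * cB D (k + 1)
      ≤ cA D (k + 2) * cA D (k + 3) * (SU D (k + 2) * SU D k) := by
  have hD0 : 0 < D := by linarith
  set t := ((k + 2 : ℕ) : ℝ) / D with ht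
  set h := 1 / D with hh
  have hh0 : 0 < h := by rw [hh]; positivity
  have hh1 : h ≤ 1 / 10000 := one_div_le_one_div_of_le (by norm_num) hD
  set a := cA D (k + 2) with ha
  set b := cB D (k + 2) with hb
  have hat : a = (1 + t) / (1 + 2 * t) := cA_eq hD0 _
  have hbt : b = t / (1 + 2 * t) := cB_eq hD0 _
  have ha0 : 0 < a := cA_pos hD0 _
  have hb0 : 0 ≤ b := cB_nonneg hD0 _
  have hab : a + b = 1 := cA_add_cB hD0 _
  have hcc : cc D (k + 2) ≤ 2 * a * b + h := by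
    unfold cc
    have e1 : cB D (k + 2 + 1) ≤ b + h := cB_step hD0 (k + 2)
    have e2 : cA D (k + 2 - 1) ≤ a + h := by
      have : k + 2 - 1 = k + 1 := by omega
      rw [this]; exact cA_step hD0 (k + 1)
    have e3 : cA D (k + 2) * cB D (k + 2 + 1) ≤ a * (b + h) := mul_le_mul_of_nonneg_left e1 ha0.le
    have e4 : cB D (k + 2) * cA D (k + 2 - 1) ≤ b * (a + h) := mul_le_mul_of_nonneg_left e2 hb0
    nlinarith
  have hA1 : a - h ≤ cA D (k + 3) := by
    have := cA_step hD0 (k + 2)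
    linarith
  have hB1 : cB D (k + 1) ≤ b := cB_mono hD0 (k + 1)
  have hS : SU D (k + 2) = 523 / 1000 + 256 / 100 * t := rfl
  have hS' : SU D k = 523 / 1000 + 256 / 100 * t - 512 / 100 * h := by
    unfold SU
    rw [ht, hh]
    push_cast
    field_simp
    ring
  have hS0 : 0 < SU D (k + 2) := by rw [hS]; linarith
  have hS'0 : 0 < SU D k := by
    have hk : (0:ℝ) ≤ k := Nat.cast_nonneg k
    unfold SU
    positivity
  have hp := poly_U t h h1 h2 hh1
  rw [← hS', ← hS] at hp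
  have hq : 0 < (1 + 2 * t) := by linarith
  have hp2 : ((7 / 10) ^ 2 + (2 * a * b + h)) * SU D k + b * b
      ≤ a * (a - h) * (SU D (k + 2) * SU D k) := by
    have e1 : ((7 / 10) ^ 2 + (2 * a * b + h)) * SU D k + b * b
        = ((49 / 100 * (1 + 2 * t) ^ 2 + 2 * t * (1 + t) + h * (1 + 2 * t) ^ 2) * SU D k + t ^ 2)
          / (1 + 2 * t) ^ 2 := by
      rw [hat, hbt]
      field_simp
      ring
    have e2 : a * (a - h) * (SU D (k + 2) * SU D k)
        = (((1 + t) ^ 2 - h * (1 + t) * (1 + 2 * t)) * (SU D (k + 2) * SU D k)) / (1 + 2 * t) ^ 2 := by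
      rw [hat]
      field_simp
    rw [e1, e2]
    exact div_le_div_of_nonneg_right hp (by positivity)
  calc ((7 / 10) ^ 2 + cc D (k + 2)) * SU D k + b * cB D (k + 1)
      ≤ ((7 / 10) ^ 2 + (2 * a * b + h)) * SU D k + b * b := by
        have x1 := mul_le_mul_of_nonneg_right hcc hS'0.le
        have x2 := mul_le_mul_of_nonneg_left hB1 hb0
        nlinarith
    _ ≤ a * (a - h) * (SU D (k + 2) * SU D k) := hp2
    _ ≤ _ := by
        apply mul_le_mul_of_nonneg_right _ (mul_pos hS0 hS'0).le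
        exact mul_le_mul_of_nonneg_left hA1 ha0.le

lemma L_rec {D : ℝ} (hD : 10000 ≤ D) (k : ℕ) (h2 : ((k + 2 : ℕ) : ℝ) / D ≤ 1 / 13) :
    cA D (k + 2) * cA D (k + 3) * (SL D (k + 2) * SL D k) + cB D (k + 2) * cB D (k + 1)
      ≤ ((7 / 10) ^ 2 + cc D (k + 2)) * SL D k := by
  have hD0 : 0 < D := by linarith
  set t := ((k + 2 : ℕ) : ℝ) / D with ht
  have ht0 : 0 ≤ t := by rw [ht]; positivity
  set h := 1 / D with hh
  have hh1 : h ≤ 1 / 10000 := one_div_le_one_div_of_le (by norm_num) hD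
  set a := cA D (k + 2) with ha
  set b := cB D (k + 2) with hb
  have hat : a = (1 + t) / (1 + 2 * t) := cA_eq hD0 _
  have hbt : b = t / (1 + 2 * t) := cB_eq hD0 _
  have ha0 : 0 < a := cA_pos hD0 _
  have hb0 : 0 ≤ b := cB_nonneg hD0 _
  have hcc : 2 * a * b ≤ cc D (k + 2) := by
    unfold cc
    have e1 : b ≤ cB D (k + 2 + 1) := cB_mono hD0 (k + 2)
    have e2 : a ≤ cA D (k + 2 - 1) := by
      have : k + 2 - 1 = k + 1 := by omega
      rw [this]; exact cA_anti hD0 (k + 1)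
    have e3 : a * b ≤ cA D (k + 2) * cB D (k + 2 + 1) := mul_le_mul_of_nonneg_left e1 ha0.le
    have e4 : b * a ≤ cB D (k + 2) * cA D (k + 2 - 1) := mul_le_mul_of_nonneg_left e2 hb0
    nlinarith
  have hA1 : cA D (k + 3) ≤ a := cA_anti hD0 (k + 2)
  have hB1 : cB D (k + 1) ≤ b := cB_mono hD0 (k + 1)
  have hS : SL D (k + 2) = 49 / 100 + 27 / 10 * t := rfl
  have hS' : SL D k = 49 / 100 + 27 / 10 * t - 54 / 10 * h := by
    unfold SL
    rw [ht, hh]
    push_cast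
    field_simp
    ring
  have hS0 : 0 < SL D (k + 2) := by rw [hS]; linarith
  have hS'0 : 0 < SL D k := by
    have hk : (0:ℝ) ≤ k := Nat.cast_nonneg k
    unfold SL
    positivity
  have hp := poly_L t h ht0 h2 hh1
  rw [← hS', ← hS] at hp
  have hq : 0 < (1 + 2 * t) := by linarith
  have hp2 : a * a * (SL D (k + 2) * SL D k) + b * b
      ≤ ((7 / 10) ^ 2 + 2 * a * b) * SL D k := by
    have e1 : ((7 / 10) ^ 2 + 2 * a * b) * SL D k
        = ((49 / 100 * (1 + 2 * t) ^ 2 + 2 * t * (1 + t)) * SL D k)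
          / (1 + 2 * t) ^ 2 := by
      rw [hat, hbt]
      field_simp
      ring
    have e2 : a * a * (SL D (k + 2) * SL D k) + b * b
        = ((1 + t) ^ 2 * (SL D (k + 2) * SL D k) + t ^ 2) / (1 + 2 * t) ^ 2 := by
      rw [hat, hbt]
      field_simp
    rw [e1, e2]
    exact div_le_div_of_nonneg_right hp (by positivity)
  calc a * cA D (k + 3) * (SL D (k + 2) * SL D k) + b * cB D (k + 1)
      ≤ a * a * (SL D (k + 2) * SL D k) + b * b := by
        have x1 := mul_le_mul_of_nonneg_right (mul_le_mul_of_nonneg_left hA1 ha0.le)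
          (mul_pos hS0 hS'0).le
        have x2 := mul_le_mul_of_nonneg_left hB1 hb0
        linarith
    _ ≤ ((7 / 10) ^ 2 + 2 * a * b) * SL D k := hp2
    _ ≤ _ := by
        apply mul_le_mul_of_nonneg_right _ hS'0.le
        linarith

/-- lower bound for the even chain of `H` -/
lemma H_lower {D : ℝ} (hD : 10000 ≤ D) :
    ∀ i : ℕ, ((2 * i : ℕ) : ℝ) / D ≤ 1 / 13 →
      SL D (2 * i) * H D (7 / 10) (2 * i) ≤ H D (7 / 10) (2 * i + 2) := by
  have hD0 : 0 < D := by linarith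
  intro i
  induction i with
  | zero =>
    intro _
    have h1 := H_mul2 hD0 (7 / 10) 0
    have e0 : cA D 0 = 1 := cA_zero hD0
    have e1 := cA_le_one hD0 1
    have e2 := cA_pos hD0 1
    have hcc : 0 ≤ cc D 0 := by
      unfold cc
      have := mul_nonneg (cA_pos hD0 0).le (cB_nonneg hD0 (0 + 1))
      rw [cB_zero]; linarith
    rw [e0, cB_zero] at h1
    have hS : SL D (2 * 0) = 49 / 100 := by simp [SL]
    have hH0 : H D (7 / 10) 0 = 1 := rfl
    have hH2 := H_pos hD0 (show (0:ℝ) < 7 / 10 by norm_num) 2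
    simp only [hH0, Nat.zero_add] at h1
    simp only [Nat.mul_zero, Nat.zero_add, hH0, mul_one] at hS ⊢
    rw [hS]
    nlinarith
  | succ i ih =>
    intro hi
    have hi' : ((2 * i : ℕ) : ℝ) / D ≤ 1 / 13 := by
      refine le_trans ?_ hi
      apply div_le_div_of_nonneg_right _ hD0.le
      push_cast; linarith
    have ih' := ih hi'
    have e : 2 * (i + 1) = 2 * i + 2 := by ring
    rw [e] at hi ⊢
    have hr := L_rec hD (2 * i) hi
    have h1 := H_mul2 hD0 (7 / 10) (2 * i + 2)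
    have em : 2 * i + 2 - 1 = 2 * i + 1 := by omega
    have em2 : 2 * i + 2 - 2 = 2 * i := by omega
    rw [em, em2] at h1
    have hA : 0 < cA D (2 * i + 2) * cA D (2 * i + 3) := mul_pos (cA_pos hD0 _) (cA_pos hD0 _)
    have hB : 0 ≤ cB D (2 * i + 2) * cB D (2 * i + 1) := mul_nonneg (cB_nonneg hD0 _) (cB_nonneg hD0 _)
    have hS0 : 0 < SL D (2 * i) := by unfold SL; positivity
    have hH := H_pos hD0 (show (0:ℝ) < 7 / 10 by norm_num) (2 * i + 2)
    have e3 : 2 * i + 2 + 1 = 2 * i + 3 := by ring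
    rw [e3] at h1
    -- multiply the goal by `A A S`
    have goal2 : (cA D (2 * i + 2) * cA D (2 * i + 3) * SL D (2 * i)) *
        (SL D (2 * i + 2) * H D (7 / 10) (2 * i + 2))
        ≤ (cA D (2 * i + 2) * cA D (2 * i + 3) * SL D (2 * i)) * H D (7 / 10) (2 * i + 2 + 2) := by
      have k1 := mul_le_mul_of_nonneg_right hr hH.le
      have k2 := mul_le_mul_of_nonneg_left ih' hB
      nlinarith [k1, k2, h1]
    exact le_of_mul_le_mul_left goal2 (mul_pos hA hS0)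

end Pool.Agent.Helper92.LP
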