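import Pool.Agent.Helper92.LP.Geg

/-!
The discrete wave equation for the mixed moments `N(j,k) = ν(G_j G_k)`.
-/

namespace Pool.Agent.Helper92.LP

variable {ι : Type*} [Fintype ι]

/-- mixed moments -/
noncomputable def NN (D : ℝ) (w x : ι → ℝ) (j k : ℕ) : ℝ :=
  ∑ i, w i * (G D (x i) j * G D (x i) k)

variable {D : ℝ} {w x : ι → ℝ}

lemma NN_wave (hD : 0 < D) (j k : ℕ) :
    cA D k * NN D w x j (k + 1) + cB D k * NN D w x j (k - 1)
      = cA D j * NN D w x (j + 1) k + cB D j * NN D w x (j - 1) k := by
  unfold NN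
  rw [Finset.mul_sum, Finset.mul_sum, Finset.mul_sum, Finset.mul_sum, ← Finset.sum_add_distrib,
    ← Finset.sum_add_distrib]
  apply Finset.sum_congr rfl
  intro i _
  have h1 := G_mul hD (x i) j
  have h2 := G_mul hD (x i) k
  have e1 : cA D k * (w i * (G D (x i) j * G D (x i) (k + 1)))
      + cB D k * (w i * (G D (x i) j * G D (x i) (k - 1)))
      = w i * G D (x i) j * (cA D k * G D (x i) (k + 1) + cB D k * G D (x i) (k - 1)) := by ring
  have e2 : cA D j * (w i * (G D (x i) (j + 1) * G D (x i) k))
      + cB D j * (w i * (G D (x i) (j - 1) * G D (x i) k))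
      = w i * G D (x i) k * (cA D j * G D (x i) (j + 1) + cB D j * G D (x i) (j - 1)) := by ring
  rw [e1, e2, ← h1, ← h2]
  ring

lemma NN_wave2 (hD : 0 < D) (j k : ℕ) :
    cA D k * cA D (k + 1) * NN D w x j (k + 2) + cc D k * NN D w x j k
      + cB D k * cB D (k - 1) * NN D w x j (k - 2)
      = cA D j * cA D (j + 1) * NN D w x (j + 2) k + cc D j * NN D w x j k
      + cB D j * cB D (j - 1) * NN D w x (j - 2) k := by
  unfold NN
  simp only [Finset.mul_sum, ← Finset.sum_add_distrib]
  apply Finset.sum_congr rfl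
  intro i _
  have h1 := G_mul2 hD (x i) j
  have h2 := G_mul2 hD (x i) k
  have e1 : cA D k * cA D (k + 1) * (w i * (G D (x i) j * G D (x i) (k + 2)))
      + cc D k * (w i * (G D (x i) j * G D (x i) k))
      + cB D k * cB D (k - 1) * (w i * (G D (x i) j * G D (x i) (k - 2)))
      = w i * G D (x i) j * (cA D k * cA D (k + 1) * G D (x i) (k + 2) + cc D k * G D (x i) k
      + cB D k * cB D (k - 1) * G D (x i) (k - 2)) := by ring
  have e2 : cA D j * cA D (j + 1) * (w i * (G D (x i) (j + 2) * G D (x i) k))
      + cc D j * (w i * (G D (x i) j * G D (x i) k))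
      + cB D j * cB D (j - 1) * (w i * (G D (x i) (j - 2) * G D (x i) k))
      = w i * G D (x i) k * (cA D j * cA D (j + 1) * G D (x i) (j + 2) + cc D j * G D (x i) j
      + cB D j * cB D (j - 1) * G D (x i) (j - 2)) := by ring
  rw [e1, e2, ← h1, ← h2]
  ring

lemma NN_left_zero {K : ℕ} (hK : ∀ i, G D (x i) K = 0) (k : ℕ) : NN D w x K k = 0 := by
  unfold NN
  apply Finset.sum_eq_zero
  intro i _
  rw [hK i]; ring

lemma NN_right_zero {K : ℕ} (hK : ∀ i, G D (x i) K = 0) (j : ℕ) : NN D w x j K = 0 := by
  unfold NN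
  apply Finset.sum_eq_zero
  intro i _
  rw [hK i]; ring

lemma NN_comm (j k : ℕ) : NN D w x j k = NN D w x k j := by
  unfold NN
  apply Finset.sum_congr rfl
  intro i _
  ring

lemma NN_left_succ (hD : 0 < D) {K : ℕ} (hK : ∀ i, G D (x i) K = 0) (k : ℕ) :
    cA D K * NN D w x (K + 1) k = - (cB D K * NN D w x (K - 1) k) := by
  unfold NN
  rw [Finset.mul_sum, Finset.mul_sum, ← Finset.sum_neg_distrib]
  apply Finset.sum_congr rfl
  intro i _
  have h := G_mul hD (x i) K
  rw [hK i, mul_zero] at h
  have h' : cA D K * G D (x i) (K + 1) = - (cB D K * G D (x i) (K - 1)) := by linarith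
  calc _ = w i * (cA D K * G D (x i) (K + 1)) * G D (x i) k := by ring
    _ = _ := by rw [h']; ring

section gauss

variable {K : ℕ}

lemma parity (hD : 0 < D) (hK2 : 2 ≤ K) (hK : ∀ i, G D (x i) K = 0)
    (hN : ∀ j k, j < K → k < K → NN D w x j k = if j = k then nn D j else 0) :
    ∀ k, ∀ j, j < K → Odd (j + k) → NN D w x j k = 0 := by
  intro k
  induction k using Nat.strong_induction_on with
  | _ k ih =>
    intro j hj hodd
    rcases k with _ | _ | k
    · rw [hN j 0 hj (by omega), if_neg]
      rintro rfl
      simp at hodd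
    · rw [hN j 1 hj (by omega), if_neg]
      rintro rfl
      revert hodd; decide
    · have hw := NN_wave (w := w) (x := x) hD j (k + 1)
      simp only [Nat.add_sub_cancel] at hw
      have h1 : NN D w x (j + 1) (k + 1) = 0 := by
        by_cases h : j + 1 < K
        · exact ih (k + 1) (by omega) (j + 1) h (by
            have : j + 1 + (k + 1) = j + (k + 1 + 1) := by ring
            rw [this]; exact hodd)
        · have : j + 1 = K := by omega
          rw [this]; exact NN_left_zero hK _
      have h2 : cB D j * NN D w x (j - 1) (k + 1) = 0 := by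
        rcases j with _ | j
        · simp [cB_zero]
        · simp only [Nat.add_sub_cancel]
          rw [ih (k + 1) (by omega) j (by omega) ?_, mul_zero]
          have : j + 1 + (k + 1 + 1) = (j + (k + 1)) + 2 := by ring
          rw [this] at hodd
          rcases hodd with ⟨m, hm⟩
          exact ⟨m - 1, by omega⟩
      have h3 : NN D w x j k = 0 := by
        refine ih k (by omega) j hj ?_
        have : j + (k + 1 + 1) = (j + k) + 2 := by ring
        rw [this] at hodd
        rcases hodd with ⟨m, hm⟩
        exact ⟨m - 1, by omega⟩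
      rw [h1, h2, h3] at hw
      have hA := cA_pos hD (k + 1)
      have : cA D (k + 1) * NN D w x j (k + 1 + 1) = 0 := by linarith
      rcases mul_eq_zero.1 this with h | h
      · exact absurd h hA.ne'
      · exact h

lemma exactness (hD : 0 < D) (hK1 : 1 ≤ K) (hK : ∀ i, G D (x i) K = 0)
    (hN : ∀ j k, j < K → k < K → NN D w x j k = if j = k then nn D j else 0) :
    ∀ k, ∀ j, j < K → K ≤ k → j + k < 2 * K → NN D w x j k = 0 := by
  intro k
  induction k using Nat.strong_induction_on with
  | _ k ih =>
    intro j hj hk hlt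
    rcases Nat.eq_or_lt_of_le hk with h | h
    · rw [← h]; exact NN_right_zero hK _
    · obtain ⟨k', rfl⟩ : ∃ k', k = k' + 1 := ⟨k - 1, by omega⟩
      have hw := NN_wave (w := w) (x := x) hD j k'
      have h1 : NN D w x (j + 1) k' = 0 := ih k' (by omega) (j + 1) (by omega) (by omega) (by omega)
      have h2 : cB D j * NN D w x (j - 1) k' = 0 := by
        rcases j with _ | j
        · simp [cB_zero]
        · simp only [Nat.add_sub_cancel]
          rw [ih k' (by omega) j (by omega) (by omega) (by omega), mul_zero]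
      have h3 : NN D w x j (k' - 1) = 0 := by
        by_cases hkk : K ≤ k' - 1
        · exact ih (k' - 1) (by omega) j hj hkk (by omega)
        · have : k' - 1 < K := by omega
          rw [hN j (k' - 1) hj this, if_neg]
          omega
      rw [h1, h2, h3] at hw
      have hA := cA_pos hD k'
      have : cA D k' * NN D w x j (k' + 1) = 0 := by linarith
      rcases mul_eq_zero.1 this with h | h
      · exact absurd h hA.ne'
      · exact h

lemma cc_succ (D : ℝ) (j : ℕ) : cc D (j + 1) = cA D (j + 1) * cB D (j + 2) + cA D j * cB D (j + 1) := by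
  unfold cc
  simp only [Nat.add_sub_cancel]
  ring

lemma cc_mono_succ (hD : 2 ≤ D) (j : ℕ) : cc D j ≤ cc D (j + 1) := by
  have hD0 : 0 < D := by linarith
  rcases j with _ | j
  · rw [cc_succ]
    unfold cc
    rw [cB_zero, zero_mul, add_zero]
    have := ab_mono hD 0
    have h2 : 0 ≤ cA D 0 * cB D (0 + 1) := mul_nonneg (cA_pos hD0 0).le (cB_nonneg hD0 1)
    linarith
  · rw [cc_succ, cc_succ]
    have := ab_mono hD j
    have := ab_mono hD (j + 1)
    linarith

lemma cc_mono (hD : 2 ≤ D) {j k : ℕ} (h : j ≤ k) : cc D j ≤ cc D k := by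
  induction k, h using Nat.le_induction with
  | base => exact le_rfl
  | succ k _ ih => exact ih.trans (cc_mono_succ hD k)

/-- The chain bound. -/
theorem chain (hD : 2 ≤ D) (hK1 : 2 ≤ K) (hK : ∀ i, G D (x i) K = 0)
    (hN : ∀ j k, j < K → k < K → NN D w x j k = if j = k then nn D j else 0)
    {τ : ℝ} (hτ : 0 < τ) (S U : ℕ → ℝ) (M : ℕ)
    (hS : ∀ s, 0 < S s) (hU0 : U 0 = nn D (K - 1) / H D τ (K - 1))
    (hU : ∀ s, U (s + 1) = S s * U s)
    (hS0 : cB D K ≤ cA D K * S 0)
    (hrec : ∀ s, s < M → (τ ^ 2 + cc D (K + 1 + 2 * s)) * S s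
        + cB D (K + 1 + 2 * s) * cB D (K + 2 * s)
      ≤ cA D (K + 1 + 2 * s) * cA D (K + 2 + 2 * s) * (S (s + 1) * S s)) :
    ∀ s, s ≤ M + 1 → ∀ j, j < K → |NN D w x j (K - 1 + 2 * s)| ≤ U s * H D τ j := by
  have hD0 : 0 < D := by linarith
  have hUpos : ∀ s, 0 < U s := by
    intro s
    induction s with
    | zero => rw [hU0]; exact div_pos (nn_pos hD0 _) (H_pos hD0 hτ _)
    | succ s ih => rw [hU]; exact mul_pos (hS s) ih
  -- extension to `j = K` and `j = K + 1`
  have hext : ∀ k (u : ℝ), 0 ≤ u → (∀ j, j < K → |NN D w x j k| ≤ u * H D τ j) →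
      ∀ j, j ≤ K + 1 → |NN D w x j k| ≤ u * H D τ j := by
    intro k u hu h j hj
    by_cases h1 : j < K
    · exact h j h1
    · by_cases h2 : j = K
      · rw [h2, NN_left_zero hK, abs_zero]
        exact mul_nonneg hu (H_pos hD0 hτ _).le
      · have h3 : j = K + 1 := by omega
        subst h3
        have e1 := NN_left_succ (w := w) hD0 hK k
        have e2 := H_mul hD0 τ K
        have hA := cA_pos hD0 K
        have hB := cB_nonneg hD0 K
        have h4 := h (K - 1) (by omega)
        have h5 : cA D K * |NN D w x (K + 1) k| = cB D K * |NN D w x (K - 1) k| := by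
          have := congrArg abs e1
          rw [abs_mul, abs_neg, abs_mul, abs_of_pos hA, abs_of_nonneg hB] at this
          exact this
        have h6 : cA D K * |NN D w x (K + 1) k| ≤ cA D K * (u * H D τ (K + 1)) := by
          rw [h5]
          calc cB D K * |NN D w x (K - 1) k| ≤ cB D K * (u * H D τ (K - 1)) :=
                mul_le_mul_of_nonneg_left h4 hB
            _ ≤ u * (cA D K * H D τ (K + 1)) := by
                have : cB D K * H D τ (K - 1) ≤ cA D K * H D τ (K + 1) := by
                  have := mul_pos hτ (H_pos hD0 hτ K)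
                  linarith
                calc _ = u * (cB D K * H D τ (K - 1)) := by ring
                  _ ≤ _ := mul_le_mul_of_nonneg_left this hu
            _ = _ := by ring
        exact le_of_mul_le_mul_left h6 hA
  intro s
  induction s using Nat.strong_induction_on with
  | _ s ih =>
    intro hs j hj
    rcases s with _ | _ | s
    · -- base
      rw [hU0, Nat.mul_zero, Nat.add_zero, hN j (K - 1) hj (by omega)]
      by_cases hjk : j = K - 1
      · rw [if_pos hjk, hjk, abs_of_pos (nn_pos hD0 _), div_mul_cancel₀]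
        exact (H_pos hD0 hτ _).ne'
      · rw [if_neg hjk, abs_zero]
        exact mul_nonneg (div_pos (nn_pos hD0 _) (H_pos hD0 hτ _)).le (H_pos hD0 hτ _).le
    · -- first step
      have h0 := ih 0 (by omega) (by omega) j hj
      rw [Nat.mul_zero, Nat.add_zero] at h0
      have e : K - 1 + 2 * (0 + 1) = K + 1 := by omega
      rw [e, NN_comm]
      have e1 := NN_left_succ (w := w) hD0 hK j
      have hA := cA_pos hD0 K
      have hB := cB_nonneg hD0 K
      have h5 : cA D K * |NN D w x (K + 1) j| = cB D K * |NN D w x (K - 1) j| := by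
        have := congrArg abs e1
        rw [abs_mul, abs_neg, abs_mul, abs_of_pos hA, abs_of_nonneg hB] at this
        exact this
      rw [NN_comm] at h0
      have hH := H_pos hD0 hτ j
      have h6 : cA D K * |NN D w x (K + 1) j| ≤ cA D K * (U (0 + 1) * H D τ j) := by
        rw [h5, hU 0]
        calc cB D K * |NN D w x (K - 1) j| ≤ cB D K * (U 0 * H D τ j) :=
              mul_le_mul_of_nonneg_left h0 hB
          _ ≤ (cA D K * S 0) * (U 0 * H D τ j) :=
              mul_le_mul_of_nonneg_right hS0 (mul_pos (hUpos 0) hH).le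
          _ = _ := by ring
      exact le_of_mul_le_mul_left h6 hA
    · -- general step
      have hk : K - 1 + 2 * (s + 1) = K + 1 + 2 * s := by omega
      have hk2 : K - 1 + 2 * (s + 1 + 1) = K + 1 + 2 * s + 2 := by omega
      have hk0 : K - 1 + 2 * s = K + 1 + 2 * s - 2 := by omega
      have ih1 := ih (s + 1) (by omega) (by omega)
      have ih0 := ih s (by omega) (by omega)
      rw [hk] at ih1
      rw [hk0] at ih0
      rw [hk2]
      set k := K + 1 + 2 * s with hkdef
      have hw := NN_wave2 (w := w) (x := x) hD0 j k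
      have hcc : cc D j ≤ cc D k := cc_mono hD (by omega)
      have hAk := cA_pos hD0 k
      have hAk1 := cA_pos hD0 (k + 1)
      have hAj := cA_pos hD0 j
      have hAj1 := cA_pos hD0 (j + 1)
      have hBj := cB_nonneg hD0 j
      have hBj1 := cB_nonneg hD0 (j - 1)
      have hBk := cB_nonneg hD0 k
      have hBk1 := cB_nonneg hD0 (k - 1)
      have x1 := hext k (U (s + 1)) (hUpos _).le ih1 (j + 2) (by omega)
      have x2 := ih1 j hj
      have x3 : cB D j * cB D (j - 1) * |NN D w x (j - 2) k|
          ≤ cB D j * cB D (j - 1) * (U (s + 1) * H D τ (j - 2)) :=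
        mul_le_mul_of_nonneg_left (ih1 (j - 2) (by omega)) (mul_nonneg hBj hBj1)
      have x4 := ih0 j hj
      have hH2 := H_mul2 hD0 τ j
      have hr := hrec s (by omega)
      have hkm : k - 1 = K + 2 * s := by omega
      have hkp : k + 1 = K + 2 + 2 * s := by omega
      rw [← hkm, ← hkp] at hr
      have hHj := H_pos hD0 hτ j
      have eq1 : cA D k * cA D (k + 1) * NN D w x j (k + 2)
          = cA D j * cA D (j + 1) * NN D w x (j + 2) k + cB D j * cB D (j - 1) * NN D w x (j - 2) k
            - (cc D k - cc D j) * NN D w x j k - cB D k * cB D (k - 1) * NN D w x j (k - 2) := by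
        linarith
      have b1 : cA D k * cA D (k + 1) * |NN D w x j (k + 2)|
          ≤ cA D j * cA D (j + 1) * |NN D w x (j + 2) k|
            + cB D j * cB D (j - 1) * |NN D w x (j - 2) k|
            + (cc D k - cc D j) * |NN D w x j k| + cB D k * cB D (k - 1) * |NN D w x j (k - 2)| := by
        have e0 : cA D k * cA D (k + 1) * |NN D w x j (k + 2)|
            = |cA D k * cA D (k + 1) * NN D w x j (k + 2)| := by
          rw [abs_mul, abs_of_pos (mul_pos hAk hAk1)]
        rw [e0, eq1]
        have t1 : |cA D j * cA D (j + 1) * NN D w x (j + 2) k|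
            = cA D j * cA D (j + 1) * |NN D w x (j + 2) k| := by
          rw [abs_mul, abs_of_pos (mul_pos hAj hAj1)]
        have t2 : |cB D j * cB D (j - 1) * NN D w x (j - 2) k|
            = cB D j * cB D (j - 1) * |NN D w x (j - 2) k| := by
          rw [abs_mul, abs_of_nonneg (mul_nonneg hBj hBj1)]
        have t3 : |(cc D k - cc D j) * NN D w x j k| = (cc D k - cc D j) * |NN D w x j k| := by
          rw [abs_mul, abs_of_nonneg (sub_nonneg.2 hcc)]
        have t4 : |cB D k * cB D (k - 1) * NN D w x j (k - 2)|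
            = cB D k * cB D (k - 1) * |NN D w x j (k - 2)| := by
          rw [abs_mul, abs_of_nonneg (mul_nonneg hBk hBk1)]
        rw [← t1, ← t2, ← t3, ← t4]
        refine (abs_sub _ _).trans (add_le_add ?_ le_rfl)
        refine (abs_sub _ _).trans (add_le_add ?_ le_rfl)
        exact abs_add_le _ _
      have y1 : cA D j * cA D (j + 1) * |NN D w x (j + 2) k|
          ≤ cA D j * cA D (j + 1) * (U (s + 1) * H D τ (j + 2)) :=
        mul_le_mul_of_nonneg_left x1 (mul_pos hAj hAj1).le
      have y2 : (cc D k - cc D j) * |NN D w x j k| ≤ (cc D k - cc D j) * (U (s + 1) * H D τ j) :=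
        mul_le_mul_of_nonneg_left x2 (sub_nonneg.2 hcc)
      have y4 : cB D k * cB D (k - 1) * |NN D w x j (k - 2)|
          ≤ cB D k * cB D (k - 1) * (U s * H D τ j) :=
        mul_le_mul_of_nonneg_left x4 (mul_nonneg hBk hBk1)
      have z1 : cA D k * cA D (k + 1) * |NN D w x j (k + 2)|
          ≤ ((τ ^ 2 + cc D k) * U (s + 1) + cB D k * cB D (k - 1) * U s) * H D τ j := by
        have e3 : ((τ ^ 2 + cc D k) * U (s + 1) + cB D k * cB D (k - 1) * U s) * H D τ j
            = U (s + 1) * (τ ^ 2 * H D τ j) + cc D k * U (s + 1) * H D τ j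
              + cB D k * cB D (k - 1) * U s * H D τ j := by ring
        rw [e3, hH2]
        nlinarith [b1, y1, y2, x3, y4]
      have z2 : (τ ^ 2 + cc D k) * U (s + 1) + cB D k * cB D (k - 1) * U s
          ≤ cA D k * cA D (k + 1) * U (s + 1 + 1) := by
        rw [hU (s + 1), hU s]
        have := mul_le_mul_of_nonneg_right hr (hUpos s).le
        calc _ = ((τ ^ 2 + cc D k) * S s + cB D k * cB D (k - 1)) * U s := by ring
          _ ≤ _ := this
          _ = _ := by ring
      have z3 : cA D k * cA D (k + 1) * |NN D w x j (k + 2)|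
          ≤ cA D k * cA D (k + 1) * (U (s + 1 + 1) * H D τ j) := by
        refine z1.trans ((mul_le_mul_of_nonneg_right z2 hHj.le).trans (le_of_eq (by ring)))
      exact le_of_mul_le_mul_left z3 (mul_pos hAk hAk1)

end gauss

end Pool.Agent.Helper92.LP
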